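import Pool.Agent.H348R2.RZ4_HIkA

set_option autoImplicit false

/-!
Task HIk of project RZ (fourth wave): the contribution of the small square classes.
-/

namespace Pool.Agent.H348R2.RZHIk

open Finset Filter Topology MeasureTheory Pool.Agent.H306R2.RZ

noncomputable section

section Est

variable {β δ : ℝ} {M N HH : ℕ} {P Q : ℝ} (F : Fx β δ M N HH P Q)

include F

lemma J_bound {Cd : ℝ} (hCd0 : 0 < Cd)
    (hCd : ∀ n : ℕ, n ≠ 0 → (n.divisors.card : ℝ) ≤ Cd * (n : ℝ) ^ δ) :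
    ((Nat.log 2 HH + 1 : ℕ) : ℝ) ≤ Cd * P ^ 2 := by
  have h1 := hCd (2 ^ Nat.log 2 HH) (by positivity)
  rw [Nat.divisors_prime_pow Nat.prime_two, Finset.card_map, Finset.card_range] at h1
  refine h1.trans ?_
  refine mul_le_mul_of_nonneg_left ?_ hCd0.le
  refine F.hXP2 _ (by positivity) ?_
  have h2 : 2 ^ Nat.log 2 HH ≤ HH := Nat.pow_log_le_self 2 (by have := F.hH1; omega)
  have h3 : ((2 ^ Nat.log 2 HH : ℕ) : ℝ) ≤ HH := by exact_mod_cast h2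
  refine h3.trans ((HH_le_NQ F).trans ?_)
  rw [pow_two]
  exact mul_le_mul (N_le_X F) F.hQX (by linarith [F.hQ1]) (by positivity)

lemma perG (hHB : SHB) (hHR : SHR) {G1 G2 : ℝ → ℂ} (hG1 : Rep δ G1) (hG2 : Rep (1 - δ) G2)
    {C1 Cd : ℝ} (hC0 : 0 < C1)
    (hC1 : ∀ M N : ℕ, 1 ≤ M → 1 ≤ N → LSB M N (C1 * ((M : ℝ) * N) ^ δ * (M + (N : ℝ) ^ β)))
    (hCd0 : 0 < Cd) (hCd : ∀ n : ℕ, n ≠ 0 → (n.divisors.card : ℝ) ≤ Cd * (n : ℝ) ^ δ)
    {a : ℕ → ℂ} (ha : ∀ n, a n ≠ 0 → N < 2 * n)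
    {g : ℕ} (hg : g ∈ osf N)
    (S : Finset ℤ) (hS : ∀ k ∈ S, Squarefree k.natAbs ∧ k.natAbs ≤ HH) :
    ‖(∑ e ∈ g.divisors, ∑ k ∈ S, ∑ n1 ∈ osf (N / g), ∑ n2 ∈ osf (N / g),
        if Cop g n1 n2 ∧ n1 ≠ n2 then trm a g κ1 1 (D1 M e) (z1 M e) k n1 n2 else 0) -
        ∑ k ∈ S, ∑ n1 ∈ osf (N / g), ∑ n2 ∈ osf (N / g),
        if Cop g n1 n2 ∧ n1 ≠ n2 then trm a g (fun _ => 1) g (D2 g) (z2 M) k n1 n2 else 0‖ ≤
      (Cd ^ 2 * (((∫ t, ‖G1 t‖) + ∫ t, ‖G2 t‖) * (3072 * Cd ^ 2 * C1 + 12)) +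
        (∫ t, ‖G1 t‖) * (Cd * (1024 * Cd ^ 2 * C1 + 3))) * (P ^ 10 * Q ^ 2 * M * AA N a g) := by
  classical
  have hM := Mr F
  have hN := Nr F
  have hP := F.hP1
  have hQ := F.hQ1
  have hg' := mem_osf.1 hg
  have hI1 : 0 ≤ ∫ t, ‖G1 t‖ := integral_nonneg fun t => norm_nonneg _
  have hI2 : 0 ≤ ∫ t, ‖G2 t‖ := integral_nonneg fun t => norm_nonneg _
  have hAA := AA_nonneg N a g
  have hQ2 : 1 ≤ Q ^ 2 := one_le_pow₀ hQ
  have hT0 : 0 ≤ P ^ 7 * Q ^ 2 * M * AA N a g := by positivity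
  -- one dyadic block
  have hblock : ∀ e ∈ g.divisors, ∀ j ∈ range (Nat.log 2 HH + 1),
      ‖∑ k ∈ S.filter (fun k => Nat.log 2 k.natAbs = j), ∑ n1 ∈ osf (N / g), ∑ n2 ∈ osf (N / g),
        if Cop g n1 n2 ∧ n1 ≠ n2 then trm a g κ1 1 (D1 M e) (z1 M e) k n1 n2 else 0‖ ≤
      ((∫ t, ‖G1 t‖) + ∫ t, ‖G2 t‖) * (3072 * Cd ^ 2 * C1 + 12) *
        (P ^ 7 * Q ^ 2 * M * AA N a g) := by
    intro e he j hj
    rw [Finset.mem_range] at hj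
    have hK1 : 1 ≤ 2 ^ (j + 1) := Nat.one_le_two_pow
    have h2j : 2 ^ j ≤ HH := by
      refine le_trans ?_ (Nat.pow_log_le_self 2 (by have := F.hH1; omega))
      exact Nat.pow_le_pow_right (by norm_num) (by omega)
    have hK : ((2 ^ (j + 1) : ℕ) : ℝ) ≤ 2 * HH := by
      have : 2 ^ (j + 1) ≤ 2 * HH := by
        rw [pow_succ]
        omega
      exact_mod_cast this
    have hS1 : ∀ k ∈ S.filter (fun k => Nat.log 2 k.natAbs = j),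
        Squarefree k.natAbs ∧ k.natAbs ≤ 2 ^ (j + 1) := by
      intro k hk
      rw [Finset.mem_filter] at hk
      refine ⟨(hS k hk.1).1, ?_⟩
      have := Nat.lt_pow_succ_log_self (b := 2) (by norm_num) k.natAbs
      rw [hk.2] at this
      exact this.le
    have hS2 : ∀ k ∈ S.filter (fun k => Nat.log 2 k.natAbs = j),
        2 ^ (j + 1) ≤ 2 * k.natAbs := by
      intro k hk
      rw [Finset.mem_filter] at hk
      have h0 : k.natAbs ≠ 0 := fun h => by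
        have := (hS k hk.1).1
        rw [h] at this
        exact not_squarefree_zero this
      have := Nat.pow_log_le_self 2 h0
      rw [hk.2] at this
      rw [pow_succ]
      omega
    rcases le_or_gt (((2 ^ (j + 1) : ℕ) : ℝ) * M * (g : ℝ) ^ 2) ((N : ℝ) ^ 2) with hA | hA
    · refine (caseA F hHB hHR hG1 hC0 hC1 hCd0 hCd ha hg he hK1 hK _ hS1 hA).trans ?_
      have h1 : (2048 * Cd ^ 2 * C1 + 12) * P ^ 7 * M * AA N a g ≤
          (3072 * Cd ^ 2 * C1 + 12) * (P ^ 7 * Q ^ 2 * M * AA N a g) := by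
        have h3 : (P ^ 7 * M * AA N a g) * 1 ≤ (P ^ 7 * M * AA N a g) * Q ^ 2 :=
          mul_le_mul_of_nonneg_left hQ2 (by positivity)
        have h4 : 0 ≤ Cd ^ 2 * C1 * (P ^ 7 * Q ^ 2 * M * AA N a g) := by positivity
        have h5 : (2048 * Cd ^ 2 * C1 + 12) * ((P ^ 7 * M * AA N a g) * 1) ≤
            (2048 * Cd ^ 2 * C1 + 12) * ((P ^ 7 * M * AA N a g) * Q ^ 2) :=
          mul_le_mul_of_nonneg_left h3 (by positivity)
        nlinarith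
      calc (∫ t, ‖G1 t‖) * ((2048 * Cd ^ 2 * C1 + 12) * P ^ 7 * M * AA N a g) ≤
          (∫ t, ‖G1 t‖) * ((3072 * Cd ^ 2 * C1 + 12) * (P ^ 7 * Q ^ 2 * M * AA N a g)) :=
            mul_le_mul_of_nonneg_left h1 hI1
        _ ≤ ((∫ t, ‖G1 t‖) + ∫ t, ‖G2 t‖) *
            ((3072 * Cd ^ 2 * C1 + 12) * (P ^ 7 * Q ^ 2 * M * AA N a g)) :=
            mul_le_mul_of_nonneg_right (by linarith) (by positivity)
        _ = _ := by ring
    · refine (caseB F hHB hHR hG2 hC0 hC1 hCd0 hCd hg he hK1 hK _ hS1 hS2 hA).trans ?_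
      have h1 : (3072 * Cd ^ 2 * C1 + 6) * P ^ 7 * Q ^ 2 * M * AA N a g ≤
          (3072 * Cd ^ 2 * C1 + 12) * (P ^ 7 * Q ^ 2 * M * AA N a g) := by
        nlinarith
      calc (∫ t, ‖G2 t‖) * ((3072 * Cd ^ 2 * C1 + 6) * P ^ 7 * Q ^ 2 * M * AA N a g) ≤
          (∫ t, ‖G2 t‖) * ((3072 * Cd ^ 2 * C1 + 12) * (P ^ 7 * Q ^ 2 * M * AA N a g)) :=
            mul_le_mul_of_nonneg_left h1 hI2
        _ ≤ ((∫ t, ‖G1 t‖) + ∫ t, ‖G2 t‖) *
            ((3072 * Cd ^ 2 * C1 + 12) * (P ^ 7 * Q ^ 2 * M * AA N a g)) :=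
            mul_le_mul_of_nonneg_right (by linarith) (by positivity)
        _ = _ := by ring
  set C2 : ℝ := ((∫ t, ‖G1 t‖) + ∫ t, ‖G2 t‖) * (3072 * Cd ^ 2 * C1 + 12) with hC2
  have hC20 : 0 ≤ C2 := by positivity
  set T : ℝ := P ^ 7 * Q ^ 2 * M * AA N a g with hT
  -- the sum over the blocks
  have hmaps : ∀ k ∈ S, Nat.log 2 k.natAbs ∈ range (Nat.log 2 HH + 1) := by
    intro k hk
    rw [Finset.mem_range]
    have := Nat.log_mono_right (b := 2) (hS k hk).2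
    omega
  have hone : ∀ e ∈ g.divisors,
      ‖∑ k ∈ S, ∑ n1 ∈ osf (N / g), ∑ n2 ∈ osf (N / g),
        if Cop g n1 n2 ∧ n1 ≠ n2 then trm a g κ1 1 (D1 M e) (z1 M e) k n1 n2 else 0‖ ≤
      (Cd * P ^ 2) * (C2 * T) := by
    intro e he
    rw [← Finset.sum_fiberwise_of_maps_to hmaps]
    refine (norm_sum_le _ _).trans ((Finset.sum_le_sum (hblock e he)).trans ?_)
    rw [Finset.sum_const, Finset.card_range, nsmul_eq_mul]
    exact mul_le_mul_of_nonneg_right (J_bound F hCd0 hCd) (by positivity)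
  have hfirst : ‖∑ e ∈ g.divisors, ∑ k ∈ S, ∑ n1 ∈ osf (N / g), ∑ n2 ∈ osf (N / g),
        if Cop g n1 n2 ∧ n1 ≠ n2 then trm a g κ1 1 (D1 M e) (z1 M e) k n1 n2 else 0‖ ≤
      (Cd * P) * ((Cd * P ^ 2) * (C2 * T)) := by
    refine (norm_sum_le _ _).trans ((Finset.sum_le_sum hone).trans ?_)
    rw [Finset.sum_const, nsmul_eq_mul]
    exact mul_le_mul_of_nonneg_right (tw_bound F hCd0 hCd (by omega) hg'.1.2) (by positivity)
  have hsecond := caseC F hHB hHR hG1 hC0 hC1 hCd0 hCd (a := a) hg S hS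
  refine (norm_sub_le _ _).trans ((add_le_add hfirst hsecond).trans ?_)
  have hP3 : 1 ≤ P ^ 3 := one_le_pow₀ hP
  have e1 : (Cd * P) * ((Cd * P ^ 2) * (C2 * T)) = Cd ^ 2 * C2 * (P ^ 3 * T) := by ring
  have e2 : (∫ t, ‖G1 t‖) * (Cd * (1024 * Cd ^ 2 * C1 + 3) * P ^ 7 * Q ^ 2 * M * AA N a g) =
      (∫ t, ‖G1 t‖) * (Cd * (1024 * Cd ^ 2 * C1 + 3)) * T := by rw [hT]; ring
  have e3 : P ^ 10 * Q ^ 2 * M * AA N a g = P ^ 3 * T := by rw [hT]; ring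
  rw [e1, e2, e3, add_mul]
  refine add_le_add le_rfl ?_
  refine mul_le_mul_of_nonneg_left ?_ (by positivity)
  nlinarith

omit F in
lemma sum_AA {Cd P' : ℝ} (hP0 : 0 ≤ P') (a : ℕ → ℂ)
    (hd : ∀ n ∈ osf N, (n.divisors.card : ℝ) ≤ Cd * P') (hCd0 : 0 < Cd) :
    ∑ g ∈ osf N, AA N a g ≤ (Cd * P') ^ 2 * ∑ n ∈ osf N, ‖a n‖ ^ 2 := by
  unfold AA
  rw [Finset.sum_comm, Finset.mul_sum]
  refine Finset.sum_le_sum fun n hn => ?_
  rw [← Finset.sum_filter, Finset.sum_const, nsmul_eq_mul]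
  have hn' := mem_osf.1 hn
  have h1 : ((osf N).filter (fun g => g ∣ n)).card ≤ n.divisors.card := by
    refine Finset.card_le_card fun g hg => ?_
    rw [Finset.mem_filter] at hg
    rw [Nat.mem_divisors]
    exact ⟨hg.2, by omega⟩
  have h2 : (((osf N).filter (fun g => g ∣ n)).card : ℝ) ≤ n.divisors.card := by
    exact_mod_cast h1
  have h3 := hd n hn
  calc (((osf N).filter (fun g => g ∣ n)).card : ℝ) * ((n.divisors.card : ℝ) * ‖a n‖ ^ 2) ≤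
        (Cd * P') * ((Cd * P') * ‖a n‖ ^ 2) := by
        refine mul_le_mul (h2.trans h3) ?_ (by positivity) (by positivity)
        exact mul_le_mul_of_nonneg_right h3 (by positivity)
    _ = _ := by ring

end Est

lemma pow_rpow' (X : ℝ) (hX : 0 ≤ X) (n : ℕ) (δ : ℝ) : (X ^ n) ^ δ = (X ^ δ) ^ n := by
  rw [← Real.rpow_natCast, ← Real.rpow_mul hX, ← Real.rpow_natCast, ← Real.rpow_mul hX, mul_comm]

/-- the relations hold -/
lemma mkFx (β δ ε' : ℝ) (h1 : 1 < β) (h2 : β ≤ 2) (hδ0 : 0 < δ) (hδ4 : δ ≤ 1 / 4) (hε0 : 0 < ε')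
    (hε1 : ε' ≤ 1) (M N : ℕ) (hN : 2 ≤ N) (hlow : (N : ℝ) ^ (2 - 1 / β) ≤ M) (hup : M ≤ N ^ 2) :
    Fx β δ M N ⌊(N : ℝ) ^ 2 * ((M : ℝ) * N) ^ ε' / M⌋₊ (((M : ℝ) * N) ^ δ)
      (((M : ℝ) * N) ^ ε') := by
  have hNr : (2 : ℝ) ≤ N := by exact_mod_cast hN
  have hβ0 : 0 < β := by linarith
  have hinv : 1 / β ≤ 1 := by
    rw [div_le_one hβ0]
    exact h1.le
  have hNM : (N : ℝ) ≤ M := by
    refine le_trans ?_ hlow
    calc (N : ℝ) = (N : ℝ) ^ (1 : ℝ) := (Real.rpow_one _).symm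
      _ ≤ _ := Real.rpow_le_rpow_of_exponent_le (by linarith) (by linarith)
  have hM2 : (2 : ℝ) ≤ M := hNr.trans hNM
  have hX1 : 1 ≤ (M : ℝ) * N := by nlinarith
  have hupr : (M : ℝ) ≤ (N : ℝ) ^ 2 := by exact_mod_cast hup
  have hQ1 : 1 ≤ ((M : ℝ) * N) ^ ε' := Real.one_le_rpow hX1 hε0.le
  have hfl : ((⌊(N : ℝ) ^ 2 * ((M : ℝ) * N) ^ ε' / M⌋₊ : ℕ) : ℝ) ≤
      (N : ℝ) ^ 2 * ((M : ℝ) * N) ^ ε' / M := Nat.floor_le (by positivity)
  have hMpos : (0 : ℝ) < M := by linarith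
  refine ⟨h1, h2, hδ0, hδ4, hN, hNM, Real.one_le_rpow hX1 hδ0.le, hQ1, ?_, ?_, ?_, ?_, ?_, ?_, ?_⟩
  · calc ((M : ℝ) * N) ^ ε' ≤ ((M : ℝ) * N) ^ (1 : ℝ) :=
          Real.rpow_le_rpow_of_exponent_le hX1 hε1
      _ = _ := Real.rpow_one _
  · intro x hx0 hx
    exact Real.rpow_le_rpow hx0 hx hδ0.le
  · intro x hx0 hx
    refine (Real.rpow_le_rpow hx0 hx hδ0.le).trans ?_
    exact (pow_rpow' _ (by positivity) 2 δ).le
  · intro x hx0 hx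
    refine (Real.rpow_le_rpow hx0 hx hδ0.le).trans ?_
    rw [Real.mul_rpow (by norm_num) (by positivity)]
    have e1 : (((M : ℝ) * N) ^ 3) ^ δ = (((M : ℝ) * N) ^ δ) ^ 3 :=
      pow_rpow' _ (by positivity) 3 δ
    rw [e1]
    refine mul_le_mul_of_nonneg_right ?_ (by positivity)
    calc (2 : ℝ) ^ δ ≤ 2 ^ (1 : ℝ) :=
          Real.rpow_le_rpow_of_exponent_le (by norm_num) (by linarith)
      _ = 2 := Real.rpow_one _
  · rw [Nat.one_le_floor_iff]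
    rw [one_le_div hMpos]
    nlinarith
  · rw [le_div_iff₀ hMpos] at hfl
    exact hfl
  · rw [Real.div_rpow (by positivity) (by positivity), div_le_iff₀ (by positivity)]
    have h3 : ((N : ℝ) ^ (2 - 1 / β)) ^ β ≤ (M : ℝ) ^ β :=
      Real.rpow_le_rpow (by positivity) hlow hβ0.le
    rw [← Real.rpow_mul (by positivity)] at h3
    have e1 : (2 - 1 / β) * β = 2 * β - 1 := by field_simp
    rw [e1] at h3
    calc ((N : ℝ) ^ 2) ^ β = (N : ℝ) ^ (2 * β) := by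
          rw [← Real.rpow_natCast, ← Real.rpow_mul (by positivity)]
          norm_num
      _ = (N : ℝ) * (N : ℝ) ^ (2 * β - 1) := by
          rw [Real.rpow_sub_one (by positivity)]
          field_simp
      _ ≤ N * (M : ℝ) ^ β := mul_le_mul_of_nonneg_left h3 (by positivity)

/-- small `k`: the main terms cancel, the error terms are bilinear forms -/
theorem HIk_of (hHR : SHR) (hHM : SHM) (hHC : SHC) (hHB : SHB)
    (β : ℝ) (h1 : 1 < β) (h2 : β ≤ 2) (h : LSP β) (ε : ℝ) (hε : 0 < ε) :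
    ∃ ε0 : ℝ, 0 < ε0 ∧ ∀ ε' : ℝ, 0 < ε' → ε' ≤ ε0 → ∃ C : ℝ, 0 < C ∧ ∀ M N : ℕ, 2 ≤ N →
      (N : ℝ) ^ (2 - 1 / β) ≤ M → M ≤ N ^ 2 → ∀ (ρ : ℕ) (a : ℕ → ℂ),
      (∀ n, a n ≠ 0 → N < 2 * n ∧ n ≤ N ∧ n % 4 = ρ) →
      ‖∑ k ∈ (Icc (-(⌊(N : ℝ) ^ 2 * ((M : ℝ) * N) ^ ε' / M⌋₊ : ℤ))
          (⌊(N : ℝ) ^ 2 * ((M : ℝ) * N) ^ ε' / M⌋₊ : ℤ)).filter (fun k => Squarefree k.natAbs),
        ∑ n1 ∈ osf N, ∑ n2 ∈ osf N, if n1 = n2 then 0 else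
          a n1 * (starRingEnd ℂ) (a n2) *
            ((js k (n1 * n2 / Nat.gcd n1 n2 ^ 2) *
                ThK M k (Nat.gcd n1 n2) (n1 * n2 / Nat.gcd n1 n2 ^ 2) -
              js k (n1 * n2) * Phr (n1 * n2) (Real.sqrt (M / k.natAbs)) : ℝ) : ℂ)‖ ≤
        C * ((M : ℝ) * N) ^ ε * M * ∑ n ∈ osf N, ‖a n‖ ^ 2 := by
  set δ : ℝ := min (ε / 40) (1 / 4) with hδ
  have hδ0 : 0 < δ := lt_min (by linarith) (by norm_num)
  have hδ4 : δ ≤ 1 / 4 := min_le_right _ _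
  have hδε : δ ≤ ε / 40 := min_le_left _ _
  obtain ⟨G1, hG1⟩ := exists_rep hHM δ hδ0 (by linarith)
  obtain ⟨G2, hG2⟩ := exists_rep hHM (1 - δ) (by linarith) (by linarith)
  obtain ⟨C1, hC0, hC1⟩ := h δ hδ0
  obtain ⟨Cd, hCd0, hCd⟩ := H353.divisor_bound_real δ hδ0
  have hI1 : 0 ≤ ∫ t, ‖G1 t‖ := integral_nonneg fun t => norm_nonneg _
  have hI2 : 0 ≤ ∫ t, ‖G2 t‖ := integral_nonneg fun t => norm_nonneg _
  refine ⟨min 1 (ε / 4), lt_min one_pos (by linarith), fun ε' hε'0 hε' => ?_⟩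
  have hε'1 : ε' ≤ 1 := hε'.trans (min_le_left _ _)
  have hε'2 : ε' ≤ ε / 4 := hε'.trans (min_le_right _ _)
  set CC : ℝ := Cd ^ 2 * (((∫ t, ‖G1 t‖) + ∫ t, ‖G2 t‖) * (3072 * Cd ^ 2 * C1 + 12)) +
        (∫ t, ‖G1 t‖) * (Cd * (1024 * Cd ^ 2 * C1 + 3)) with hCC
  have hCC0 : 0 ≤ CC := by positivity
  refine ⟨CC * Cd ^ 2 + 1, by positivity, fun M N hN hlow hup ρ a ha => ?_⟩
  have F := mkFx β δ ε' h1 h2 hδ0 hδ4 hε'0 hε'1 M N hN hlow hup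
  set HH : ℕ := ⌊(N : ℝ) ^ 2 * ((M : ℝ) * N) ^ ε' / M⌋₊ with hHH
  set P : ℝ := ((M : ℝ) * N) ^ δ with hPd
  set Q : ℝ := ((M : ℝ) * N) ^ ε' with hQd
  have hM := Mr F
  have hNr := Nr F
  have hP := F.hP1
  have hQ := F.hQ1
  have hX1 := X_ge_one F
  set S : Finset ℤ := (Icc (-(HH : ℤ)) (HH : ℤ)).filter (fun k => Squarefree k.natAbs) with hSd
  have hS : ∀ k ∈ S, Squarefree k.natAbs ∧ k.natAbs ≤ HH := by
    intro k hk
    rw [hSd, Finset.mem_filter, Finset.mem_Icc] at hk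
    refine ⟨hk.2, by omega⟩
  have ha' : ∀ n, a n ≠ 0 → N < 2 * n := fun n hn => (ha n hn).1
  have key := decomp hHC (M : ℝ) (by linarith) N a S (fun k hk => (hS k hk).1)
  have key2 : ‖∑ k ∈ S, ∑ n1 ∈ osf N, ∑ n2 ∈ osf N, brk M a k n1 n2‖ ≤
      CC * (P ^ 10 * Q ^ 2 * M * ((Cd * P) ^ 2 * ∑ n ∈ osf N, ‖a n‖ ^ 2)) := by
    rw [key]
    refine (norm_sum_le _ _).trans ?_
    refine (Finset.sum_le_sum fun g hg =>
      perG F hHB hHR hG1 hG2 hC0 hC1 hCd0 hCd ha' hg S hS).trans ?_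
    rw [← Finset.mul_sum, ← Finset.mul_sum]
    refine mul_le_mul_of_nonneg_left ?_ hCC0
    refine mul_le_mul_of_nonneg_left ?_ (by positivity)
    refine sum_AA (by positivity) a (fun n hn => ?_) hCd0
    have hn' := mem_osf.1 hn
    exact tw_bound F hCd0 hCd (by omega) hn'.1.2
  refine key2.trans ?_
  have hA0 : 0 ≤ ∑ n ∈ osf N, ‖a n‖ ^ 2 := Finset.sum_nonneg fun n _ => by positivity
  have hPQ : P ^ 12 * Q ^ 2 ≤ ((M : ℝ) * N) ^ ε := by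
    rw [hPd, hQd, ← Real.rpow_natCast, ← Real.rpow_natCast, ← Real.rpow_mul (by positivity),
      ← Real.rpow_mul (by positivity), ← Real.rpow_add (by positivity)]
    refine Real.rpow_le_rpow_of_exponent_le hX1 ?_
    push_cast
    linarith
  calc CC * (P ^ 10 * Q ^ 2 * M * ((Cd * P) ^ 2 * ∑ n ∈ osf N, ‖a n‖ ^ 2)) =
        CC * Cd ^ 2 * (P ^ 12 * Q ^ 2) * M * ∑ n ∈ osf N, ‖a n‖ ^ 2 := by ring
    _ ≤ (CC * Cd ^ 2 + 1) * ((M : ℝ) * N) ^ ε * M * ∑ n ∈ osf N, ‖a n‖ ^ 2 := by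
        refine mul_le_mul_of_nonneg_right ?_ hA0
        refine mul_le_mul_of_nonneg_right ?_ (by linarith)
        exact mul_le_mul (by linarith) hPQ (by positivity) (by positivity)

end

end Pool.Agent.H348R2.RZHIk
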