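import Pool.Agent.H306R2.RZ.Defs4
import Pool.Agent.H353R2.Z2

set_option autoImplicit false

/-!
Task HIk of project RZ (fourth wave): the contribution of the small square classes, estimates.
-/

namespace Pool.Agent.H348R2.RZHIk

open Finset Filter Topology MeasureTheory Pool.Agent.H306R2.RZ

noncomputable section

/-! ### The statements used -/

/-- statement of HR -/
def SHR : Prop := ∀ (M N : ℕ) (B : ℝ) (_ : 0 ≤ B) (_ : LSB M N B),
    (∀ b : ℕ → ℂ, ∑ n ∈ osf N, ‖∑ m ∈ sqf M, b m * (js m n : ℂ)‖ ^ 2 ≤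
      B * ∑ m ∈ sqf M, ‖b m‖ ^ 2) ∧ LSB N M (64 * B)

/-- statement of HM -/
def SHM : Prop := ∃ g : ℂ → ℂ, (∀ σ : ℝ, 0 < σ → σ < 1 →
      Integrable (fun t : ℝ => g ((σ : ℂ) + t * Complex.I))) ∧
    ∀ σ : ℝ, 0 < σ → σ < 1 → ∀ r : ℕ, r ≠ 0 → ∀ Z : ℝ, 0 < Z →
      (Er r Z : ℂ) = ∫ t : ℝ, g ((σ : ℂ) + t * Complex.I) * hs ((σ : ℂ) + t * Complex.I) r *
        (Z : ℂ) ^ ((σ : ℂ) + t * Complex.I)

/-- statement of HC -/
def SHC : Prop := ∀ (M : ℝ) (_ : 0 < M) (k : ℤ) (_ : Squarefree k.natAbs) (g q : ℕ)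
    (_ : Squarefree g) (_ : q ≠ 0) (_ : g.Coprime q),
    ∑ e ∈ g.divisors, ((ArithmeticFunction.moebius e : ℤ) : ℝ) * (M / (e * Real.sqrt q)) *
      (((q.totient : ℝ) / q) *
        Real.sqrt ((e.gcd k.natAbs : ℝ) ^ 2 * q / ((k.natAbs : ℝ) * M))) =
      if Nat.Coprime k.natAbs g then
        (((g * q).totient : ℝ) / ((g * q : ℕ) : ℝ)) * Real.sqrt (M / k.natAbs) else 0

/-- statement of HB -/
def SHB : Prop := ∀ (N K g : ℕ) (_ : Odd g) (_ : Squarefree g) (B : ℝ) (_ : 0 ≤ B)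
    (_ : LSB K (N / g) B) (a : ℕ → ℂ) (u : ℕ → ℂ) (U : ℝ) (_ : 0 ≤ U) (_ : ∀ n, ‖u n‖ ≤ U)
    (S : Finset ℤ) (_ : ∀ k ∈ S, Squarefree k.natAbs ∧ k.natAbs ≤ K) (ω : ℤ → ℂ)
    (_ : ∀ k, ‖ω k‖ ≤ 1),
    ‖∑ k ∈ S, ω k * ∑ n1 ∈ osf (N / g), ∑ n2 ∈ osf (N / g),
      if n1.Coprime n2 ∧ n1.Coprime g ∧ n2.Coprime g then
        a (g * n1) * (starRingEnd ℂ) (a (g * n2)) * u n1 * u n2 * (js k (n1 * n2) : ℂ) else 0‖ ≤
      4 * U ^ 2 * B * ∑ n ∈ osf N, (if g ∣ n then (n.divisors.card : ℝ) * ‖a n‖ ^ 2 else 0)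

/-! ### The Mellin representation -/

/-- the point `σ + it` -/
def sp (σ t : ℝ) : ℂ := (σ : ℂ) + t * Complex.I

lemma sp_re (σ t : ℝ) : (sp σ t).re = σ := by simp [sp]

/-- the Mellin representation on the line `Re s = σ` -/
structure Rep (σ : ℝ) (G : ℝ → ℂ) : Prop where
  int : Integrable G
  rep : ∀ r : ℕ, r ≠ 0 → ∀ Z : ℝ, 0 < Z →
    (Er r Z : ℂ) = ∫ t : ℝ, G t * hs (sp σ t) r * (Z : ℂ) ^ (sp σ t)

lemma exists_rep (h : SHM) (σ : ℝ) (h0 : 0 < σ) (h1 : σ < 1) : ∃ G, Rep σ G := by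
  obtain ⟨g, hg1, hg2⟩ := h
  exact ⟨fun t => g (sp σ t), hg1 σ h0 h1, hg2 σ h0 h1⟩

/-- `2^{ω(n)}` -/
def tw (n : ℕ) : ℝ := 2 ^ n.primeFactors.card

lemma tw_pos (n : ℕ) : 0 < tw n := by unfold tw; positivity

lemma tw_one : tw 1 = 1 := by simp [tw]

lemma tw_le (n : ℕ) (hn : n ≠ 0) : tw n ≤ n.divisors.card := by
  unfold tw
  rw [Nat.card_divisors hn]
  have h1 : (2 : ℕ) ^ n.primeFactors.card ≤ ∏ x ∈ n.primeFactors, (n.factorization x + 1) := by
    rw [← Finset.prod_const]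
    refine Finset.prod_le_prod' fun p hp => ?_
    have h2 : n.factorization p ≠ 0 := by
      rw [← Finsupp.mem_support_iff, Nat.support_factorization]
      exact hp
    omega
  exact_mod_cast h1

lemma norm_hs_le (σ t : ℝ) (h0 : 0 < σ) (r : ℕ) : ‖hs (sp σ t) r‖ ≤ tw r := by
  unfold hs tw
  rw [norm_prod, ← Finset.prod_const]
  refine Finset.prod_le_prod (fun _ _ => norm_nonneg _) fun p hp => ?_
  have hp0 : 0 < p := (Nat.prime_of_mem_primeFactors hp).pos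
  refine (norm_sub_le _ _).trans ?_
  rw [norm_one, Complex.norm_natCast_cpow_of_pos hp0, Complex.neg_re, sp_re]
  have h1 : (p : ℝ) ^ (-σ) ≤ 1 := by
    apply Real.rpow_le_one_of_one_le_of_nonpos
    · exact_mod_cast hp0
    · linarith
  linarith

lemma hs_mul (s : ℂ) (a b : ℕ) (h : a.Coprime b) : hs s (a * b) = hs s a * hs s b := by
  unfold hs
  rw [h.primeFactors_mul, Finset.prod_union h.disjoint_primeFactors]

lemma continuous_sp (σ : ℝ) : Continuous (fun t : ℝ => sp σ t) := by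
  unfold sp
  fun_prop

lemma continuous_hs (σ : ℝ) (r : ℕ) : Continuous (fun t : ℝ => hs (sp σ t) r) := by
  unfold hs
  refine continuous_finsetProd _ fun p hp => ?_
  have hp0 : p ≠ 0 := (Nat.prime_of_mem_primeFactors hp).ne_zero
  refine continuous_const.sub ?_
  exact (continuous_sp σ).neg.const_cpow (Or.inl (by exact_mod_cast hp0))

lemma norm_cpow (σ t Z : ℝ) (hZ : 0 < Z) : ‖(Z : ℂ) ^ (sp σ t)‖ = Z ^ σ := by
  rw [Complex.norm_cpow_eq_rpow_re_of_pos hZ, sp_re]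

lemma continuous_cp (σ Z : ℝ) (hZ : 0 < Z) : Continuous (fun t : ℝ => (Z : ℂ) ^ (sp σ t)) :=
  (continuous_sp σ).const_cpow (Or.inl (by exact_mod_cast hZ.ne'))

lemma term_int {σ : ℝ} {G : ℝ → ℂ} (hG : Rep σ G) (h0 : 0 < σ) (r : ℕ) (Z : ℝ) (hZ : 0 < Z) :
    Integrable (fun t => G t * (hs (sp σ t) r * (Z : ℂ) ^ (sp σ t))) := by
  refine hG.int.mul_bdd (c := tw r * Z ^ σ)
    (((continuous_hs σ r).mul (continuous_cp σ Z hZ)).aestronglyMeasurable) ?_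
  refine Filter.Eventually.of_forall fun t => ?_
  rw [norm_mul, norm_cpow σ t Z hZ]
  exact mul_le_mul_of_nonneg_right (norm_hs_le σ t h0 r) (by positivity)

/-- exchange of a finite sum and the Mellin integral -/
lemma exchange {σ : ℝ} {G : ℝ → ℂ} (hG : Rep σ G) (h0 : 0 < σ) {ι : Type*} (T : Finset ι)
    (c : ι → ℂ) (r : ι → ℕ) (Z : ι → ℝ) (hr : ∀ i ∈ T, r i ≠ 0) (hZ : ∀ i ∈ T, 0 < Z i) :
    ∑ i ∈ T, c i * (Er (r i) (Z i) : ℂ) =
      ∫ t, G t * ∑ i ∈ T, c i * (hs (sp σ t) (r i) * (Z i : ℂ) ^ (sp σ t)) := by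
  have h1 : ∀ t, G t * ∑ i ∈ T, c i * (hs (sp σ t) (r i) * (Z i : ℂ) ^ (sp σ t)) =
      ∑ i ∈ T, c i * (G t * (hs (sp σ t) (r i) * (Z i : ℂ) ^ (sp σ t))) := by
    intro t
    rw [Finset.mul_sum]
    exact Finset.sum_congr rfl fun i _ => by ring
  simp_rw [h1]
  rw [integral_finsetSum]
  · refine Finset.sum_congr rfl fun i hi => ?_
    rw [integral_const_mul, hG.rep (r i) (hr i hi) (Z i) (hZ i hi)]
    simp_rw [mul_assoc]
  · intro i hi
    exact (term_int hG h0 (r i) (Z i) (hZ i hi)).const_mul _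

lemma Er_bound {σ : ℝ} {G : ℝ → ℂ} (hG : Rep σ G) (h0 : 0 < σ) (r : ℕ) (hr : r ≠ 0) (Z : ℝ)
    (hZ : 0 < Z) : |Er r Z| ≤ (∫ t, ‖G t‖) * (tw r * Z ^ σ) := by
  have h1 : |Er r Z| = ‖(Er r Z : ℂ)‖ := by rw [Complex.norm_real, Real.norm_eq_abs]
  rw [h1, hG.rep r hr Z hZ, ← integral_mul_const]
  refine norm_integral_le_of_norm_le (hG.int.norm.mul_const _) ?_
  refine Filter.Eventually.of_forall fun t => ?_
  rw [mul_assoc, norm_mul, norm_mul, norm_cpow σ t Z hZ]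
  refine mul_le_mul_of_nonneg_left ?_ (norm_nonneg _)
  exact mul_le_mul_of_nonneg_right (norm_hs_le σ t h0 r) (by positivity)

/-! ### The block lemma -/

/-- the coprimality conditions -/
abbrev Cop (g n1 n2 : ℕ) : Prop := n1.Coprime n2 ∧ n1.Coprime g ∧ n2.Coprime g

/-- the weight -/
def AA (N : ℕ) (a : ℕ → ℂ) (g : ℕ) : ℝ :=
  ∑ n ∈ osf N, (if g ∣ n then (n.divisors.card : ℝ) * ‖a n‖ ^ 2 else 0)

lemma AA_nonneg (N : ℕ) (a : ℕ → ℂ) (g : ℕ) : 0 ≤ AA N a g := by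
  unfold AA
  refine Finset.sum_nonneg fun n _ => ?_
  split_ifs <;> positivity

/-- the data of a block -/
structure Blk (σ : ℝ) (N K g : ℕ) (B : ℝ) (a : ℕ → ℂ) (U : ℝ) (κ : ℕ → ℝ) (c : ℕ)
    (S : Finset ℤ) (D z : ℤ → ℝ) (V : ℝ) : Prop where
  gN : g ∈ osf N
  hB : 0 ≤ B
  ls : LSB K (N / g) B
  hU : 0 ≤ U
  κpos : ∀ n, n ≠ 0 → 0 < κ n
  κone : κ 1 = 1
  hc : c ∣ g
  hub : ∀ n ∈ osf (N / g), a (g * n) ≠ 0 → tw n * κ n ^ (σ - 1) ≤ U
  hS : ∀ k ∈ S, Squarefree k.natAbs ∧ k.natAbs ≤ K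
  hz : ∀ k ∈ S, 0 < z k
  hV : 0 < V
  hDV : ∀ k ∈ S, |D k| * (z k) ^ σ ≤ V

/-- the term of a block -/
def trm (a : ℕ → ℂ) (g : ℕ) (κ : ℕ → ℝ) (c : ℕ) (D z : ℤ → ℝ) (k : ℤ) (n1 n2 : ℕ) : ℂ :=
  a (g * n1) * (starRingEnd ℂ) (a (g * n2)) *
    ((js k (n1 * n2) * (D k / (κ n1 * κ n2) * Er (c * (n1 * n2)) (z k * (κ n1 * κ n2))) : ℝ) : ℂ)

lemma mem_osf {N n : ℕ} : n ∈ osf N ↔ (1 ≤ n ∧ n ≤ N) ∧ Odd n ∧ Squarefree n := by
  unfold osf
  rw [Finset.mem_filter, Finset.mem_Icc]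

lemma block_full (hHB : SHB) {σ : ℝ} {G : ℝ → ℂ} (hG : Rep σ G) (h0 : 0 < σ) {N K g : ℕ} {B : ℝ}
    {a : ℕ → ℂ} {U : ℝ} {κ : ℕ → ℝ} {c : ℕ} {S : Finset ℤ} {D z : ℤ → ℝ} {V : ℝ}
    (h : Blk σ N K g B a U κ c S D z V) :
    ‖∑ k ∈ S, ∑ n1 ∈ osf (N / g), ∑ n2 ∈ osf (N / g),
      if Cop g n1 n2 then trm a g κ c D z k n1 n2 else 0‖ ≤
      (∫ t, ‖G t‖) * (tw c * V * (4 * U ^ 2 * B * AA N a g)) := by
  classical
  have hg := mem_osf.1 h.gN
  have hg0 : g ≠ 0 := by omega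
  have hc0 : c ≠ 0 := fun hc => by
    have := h.hc
    rw [hc, zero_dvd_iff] at this
    exact hg0 this
  -- the sum as a sum over a product
  set T : Finset (ℤ × ℕ × ℕ) := S ×ˢ (osf (N / g) ×ˢ osf (N / g)) with hT
  set cc : ℤ × ℕ × ℕ → ℂ := fun p => if Cop g p.2.1 p.2.2 then
    a (g * p.2.1) * (starRingEnd ℂ) (a (g * p.2.2)) *
      ((js p.1 (p.2.1 * p.2.2) * (D p.1 / (κ p.2.1 * κ p.2.2)) : ℝ) : ℂ) else 0 with hcc
  have e1 : (∑ k ∈ S, ∑ n1 ∈ osf (N / g), ∑ n2 ∈ osf (N / g),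
      if Cop g n1 n2 then trm a g κ c D z k n1 n2 else 0) =
      ∑ p ∈ T, cc p * (Er (c * (p.2.1 * p.2.2)) (z p.1 * (κ p.2.1 * κ p.2.2)) : ℂ) := by
    rw [hT, Finset.sum_product]
    refine Finset.sum_congr rfl fun k _ => ?_
    rw [Finset.sum_product]
    refine Finset.sum_congr rfl fun n1 _ => Finset.sum_congr rfl fun n2 _ => ?_
    simp only [hcc]
    split_ifs
    · unfold trm
      push_cast
      ring
    · rw [zero_mul]
  have hn0 : ∀ n ∈ osf (N / g), n ≠ 0 := fun n hn => by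
    have := mem_osf.1 hn
    omega
  have hTr : ∀ p ∈ T, c * (p.2.1 * p.2.2) ≠ 0 := by
    intro p hp
    rw [hT, Finset.mem_product, Finset.mem_product] at hp
    exact Nat.mul_ne_zero hc0 (Nat.mul_ne_zero (hn0 _ hp.2.1) (hn0 _ hp.2.2))
  have hTz : ∀ p ∈ T, 0 < z p.1 * (κ p.2.1 * κ p.2.2) := by
    intro p hp
    rw [hT, Finset.mem_product, Finset.mem_product] at hp
    exact mul_pos (h.hz _ hp.1) (mul_pos (h.κpos _ (hn0 _ hp.2.1)) (h.κpos _ (hn0 _ hp.2.2)))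
  rw [e1, exchange hG h0 T cc _ _ hTr hTz, ← integral_mul_const]
  refine norm_integral_le_of_norm_le (hG.int.norm.mul_const _) ?_
  refine Filter.Eventually.of_forall fun t => ?_
  rw [norm_mul]
  refine mul_le_mul_of_nonneg_left ?_ (norm_nonneg _)
  -- the bilinear form at the height `t`
  set s := sp σ t with hs_def
  set u : ℕ → ℂ := fun n => if n ∈ osf (N / g) ∧ a (g * n) ≠ 0 then
    hs s n * ((κ n : ℂ) ^ s / (κ n : ℂ)) else 0 with hu
  set w : ℤ → ℂ := fun k => if k ∈ S then (D k : ℂ) * (z k : ℂ) ^ s / (V : ℂ) else 0 with hw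
  have hu1 : ∀ n, ‖u n‖ ≤ U := by
    intro n
    simp only [hu]
    split_ifs with hn
    · have hκ := h.κpos n (hn0 n hn.1)
      rw [norm_mul, norm_div, norm_cpow σ t _ hκ, Complex.norm_real, Real.norm_eq_abs,
        abs_of_pos hκ]
      have e2 : κ n ^ σ / κ n = κ n ^ (σ - 1) := by
        rw [Real.rpow_sub_one hκ.ne']
      rw [e2]
      refine le_trans ?_ (h.hub n hn.1 hn.2)
      exact mul_le_mul_of_nonneg_right (norm_hs_le σ t h0 n) (by positivity)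
    · rw [norm_zero]
      exact h.hU
  have hw1 : ∀ k, ‖w k‖ ≤ 1 := by
    intro k
    simp only [hw]
    split_ifs with hk
    · rw [norm_div, norm_mul, norm_cpow σ t _ (h.hz k hk), Complex.norm_real, Complex.norm_real,
        Real.norm_eq_abs, Real.norm_eq_abs, abs_of_pos h.hV, div_le_one h.hV]
      exact h.hDV k hk
    · rw [norm_zero]
      exact zero_le_one
  have hb := hHB N K g hg.2.1 hg.2.2 B h.hB h.ls a u U h.hU hu1 S h.hS w hw1
  have e3 : ∑ p ∈ T, cc p * (hs s (c * (p.2.1 * p.2.2)) *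
      ((z p.1 * (κ p.2.1 * κ p.2.2) : ℝ) : ℂ) ^ s) =
      hs s c * (V : ℂ) * ∑ k ∈ S, w k * ∑ n1 ∈ osf (N / g), ∑ n2 ∈ osf (N / g),
      if n1.Coprime n2 ∧ n1.Coprime g ∧ n2.Coprime g then
        a (g * n1) * (starRingEnd ℂ) (a (g * n2)) * u n1 * u n2 * (js k (n1 * n2) : ℂ) else 0 := by
    rw [hT, Finset.sum_product, Finset.mul_sum]
    refine Finset.sum_congr rfl fun k hk => ?_
    rw [Finset.sum_product, Finset.mul_sum, Finset.mul_sum]
    refine Finset.sum_congr rfl fun n1 hn1 => ?_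
    rw [Finset.mul_sum, Finset.mul_sum]
    refine Finset.sum_congr rfl fun n2 hn2 => ?_
    simp only [hcc]
    by_cases hcop : Cop g n1 n2
    · rw [if_pos hcop, if_pos hcop]
      by_cases ha1 : a (g * n1) = 0
      · rw [ha1]
        simp
      by_cases ha2 : a (g * n2) = 0
      · rw [ha2]
        simp
      have e4 : u n1 = hs s n1 * ((κ n1 : ℂ) ^ s / (κ n1 : ℂ)) := by
        simp only [hu]
        rw [if_pos ⟨hn1, ha1⟩]
      have e5 : u n2 = hs s n2 * ((κ n2 : ℂ) ^ s / (κ n2 : ℂ)) := by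
        simp only [hu]
        rw [if_pos ⟨hn2, ha2⟩]
      have e6 : w k = (D k : ℂ) * (z k : ℂ) ^ s / (V : ℂ) := by
        simp only [hw]
        rw [if_pos hk]
      have hk1 := h.κpos n1 (hn0 n1 hn1)
      have hk2 := h.κpos n2 (hn0 n2 hn2)
      have hzk := h.hz k hk
      have hc1 : c.Coprime (n1 * n2) := by
        refine Nat.Coprime.mul_right ?_ ?_
        · exact (hcop.2.1.symm).coprime_dvd_left h.hc
        · exact (hcop.2.2.symm).coprime_dvd_left h.hc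
      rw [e4, e5, e6, hs_mul s c (n1 * n2) hc1, hs_mul s n1 n2 hcop.1]
      have e7 : (((z k * (κ n1 * κ n2) : ℝ)) : ℂ) ^ s =
          (z k : ℂ) ^ s * ((κ n1 : ℂ) ^ s * (κ n2 : ℂ) ^ s) := by
        rw [Complex.ofReal_mul, Complex.ofReal_mul,
          ← Complex.ofReal_mul, ← Complex.ofReal_mul]
        rw [Complex.ofReal_mul (z k), Complex.mul_cpow_ofReal_nonneg hzk.le (by positivity),
          Complex.ofReal_mul (κ n1), Complex.mul_cpow_ofReal_nonneg hk1.le hk2.le]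
      rw [e7]
      have hV' : (V : ℂ) ≠ 0 := by exact_mod_cast h.hV.ne'
      have hk1' : (κ n1 : ℂ) ≠ 0 := by exact_mod_cast hk1.ne'
      have hk2' : (κ n2 : ℂ) ≠ 0 := by exact_mod_cast hk2.ne'
      push_cast
      field_simp
    · rw [if_neg hcop, if_neg hcop]
      simp
  rw [e3, norm_mul, norm_mul, Complex.norm_real, Real.norm_eq_abs, abs_of_pos h.hV]
  refine mul_le_mul ?_ hb (norm_nonneg _) (by have := tw_pos c; have := h.hV; positivity)
  exact mul_le_mul_of_nonneg_right (norm_hs_le σ t h0 c) h.hV.le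

/-- the block without the diagonal -/
lemma block (hHB : SHB) {σ : ℝ} {G : ℝ → ℂ} (hG : Rep σ G) (h0 : 0 < σ) {N K g : ℕ} {B : ℝ}
    {a : ℕ → ℂ} {U : ℝ} {κ : ℕ → ℝ} {c : ℕ} {S : Finset ℤ} {D z : ℤ → ℝ} {V : ℝ}
    (h : Blk σ N K g B a U κ c S D z V) :
    ‖∑ k ∈ S, ∑ n1 ∈ osf (N / g), ∑ n2 ∈ osf (N / g),
      if Cop g n1 n2 ∧ n1 ≠ n2 then trm a g κ c D z k n1 n2 else 0‖ ≤
      (∫ t, ‖G t‖) * (tw c * V * (4 * U ^ 2 * B * AA N a g + S.card * ‖a g‖ ^ 2)) := by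
  classical
  have hg := mem_osf.1 h.gN
  have hg0 : g ≠ 0 := by omega
  have hc0 : c ≠ 0 := fun hc => by
    have := h.hc
    rw [hc, zero_dvd_iff] at this
    exact hg0 this
  have h1N : (1 : ℕ) ∈ osf (N / g) := by
    rw [mem_osf]
    refine ⟨⟨le_rfl, ?_⟩, odd_one, squarefree_one⟩
    rw [Nat.le_div_iff_mul_le (by omega)]
    omega
  have e1 : ∀ k, (∑ n1 ∈ osf (N / g), ∑ n2 ∈ osf (N / g),
      if Cop g n1 n2 ∧ n1 ≠ n2 then trm a g κ c D z k n1 n2 else 0) =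
      (∑ n1 ∈ osf (N / g), ∑ n2 ∈ osf (N / g),
        if Cop g n1 n2 then trm a g κ c D z k n1 n2 else 0) - trm a g κ c D z k 1 1 := by
    intro k
    have e2 : trm a g κ c D z k 1 1 = ∑ n1 ∈ osf (N / g), ∑ n2 ∈ osf (N / g),
        if n1 = 1 ∧ n2 = 1 then trm a g κ c D z k n1 n2 else 0 := by
      rw [Finset.sum_eq_single 1, Finset.sum_eq_single 1]
      · rw [if_pos ⟨rfl, rfl⟩]
      · intro b _ hb
        rw [if_neg (fun h => hb h.2)]
      · intro h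
        exact absurd h1N h
      · intro b _ hb
        refine Finset.sum_eq_zero fun n2 _ => ?_
        rw [if_neg (fun h => hb h.1)]
      · intro h
        exact absurd h1N h
    rw [e2, ← Finset.sum_sub_distrib]
    refine Finset.sum_congr rfl fun n1 _ => ?_
    rw [← Finset.sum_sub_distrib]
    refine Finset.sum_congr rfl fun n2 _ => ?_
    by_cases hcop : Cop g n1 n2
    · by_cases hn : n1 = n2
      · subst hn
        have h3 : n1 = 1 := (Nat.coprime_self n1).1 hcop.1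
        subst h3
        rw [if_neg (fun h => h.2 rfl), if_pos hcop, if_pos ⟨rfl, rfl⟩, sub_self]
      · have h4 : ¬ (n1 = 1 ∧ n2 = 1) := fun h => hn (h.1.trans h.2.symm)
        rw [if_pos ⟨hcop, hn⟩, if_pos hcop, if_neg h4, sub_zero]
    · have h4 : ¬ (n1 = 1 ∧ n2 = 1) := by
        rintro ⟨rfl, rfl⟩
        exact hcop ⟨Nat.coprime_one_left 1, Nat.coprime_one_left g, Nat.coprime_one_left g⟩
      have h5 : ¬ (Cop g n1 n2 ∧ n1 ≠ n2) := fun h => hcop h.1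
      rw [if_neg h5, if_neg hcop, if_neg h4, sub_zero]
  simp_rw [e1]
  rw [Finset.sum_sub_distrib]
  refine (norm_sub_le _ _).trans ?_
  have hI : 0 ≤ ∫ t, ‖G t‖ := integral_nonneg fun t => norm_nonneg _
  have hd : ‖∑ k ∈ S, trm a g κ c D z k 1 1‖ ≤
      (∫ t, ‖G t‖) * (tw c * V * (S.card * ‖a g‖ ^ 2)) := by
    refine (norm_sum_le _ _).trans ?_
    have h6 : ∀ k ∈ S, ‖trm a g κ c D z k 1 1‖ ≤ (∫ t, ‖G t‖) * (tw c * V) * ‖a g‖ ^ 2 := by
      intro k hk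
      have hzk := h.hz k hk
      have hE := Er_bound hG h0 c hc0 (z k) hzk
      unfold trm
      rw [norm_mul, norm_mul, RCLike.norm_conj, Complex.norm_real, Real.norm_eq_abs, h.κone]
      have hjs : js k (1 * 1) = 1 := by simp [js]
      rw [hjs]
      simp only [mul_one, div_one, one_mul]
      rw [abs_mul]
      have h7 : |D k| * |Er c (z k)| ≤ (∫ t, ‖G t‖) * (tw c * V) := by
        calc |D k| * |Er c (z k)| ≤ |D k| * ((∫ t, ‖G t‖) * (tw c * z k ^ σ)) :=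
              mul_le_mul_of_nonneg_left hE (abs_nonneg _)
          _ = (∫ t, ‖G t‖) * (tw c * (|D k| * z k ^ σ)) := by ring
          _ ≤ _ := by
              refine mul_le_mul_of_nonneg_left ?_ hI
              exact mul_le_mul_of_nonneg_left (h.hDV k hk) (tw_pos c).le
      calc ‖a g‖ * ‖a g‖ * (|D k| * |Er c (z k)|) ≤
            ‖a g‖ * ‖a g‖ * ((∫ t, ‖G t‖) * (tw c * V)) :=
            mul_le_mul_of_nonneg_left h7 (by positivity)
        _ = _ := by ring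
    refine (Finset.sum_le_sum h6).trans ?_
    rw [Finset.sum_const, nsmul_eq_mul]
    apply le_of_eq
    ring
  refine (add_le_add (block_full hHB hG h0 h) hd).trans ?_
  apply le_of_eq
  ring

/-! ### Regrouping by the greatest common divisor -/

lemma regroup (N : ℕ) (F : ℕ → ℕ → ℂ) :
    ∑ n1 ∈ osf N, ∑ n2 ∈ osf N, F n1 n2 =
      ∑ g ∈ osf N, ∑ n1 ∈ osf (N / g), ∑ n2 ∈ osf (N / g),
        if Cop g n1 n2 then F (g * n1) (g * n2) else 0 := by
  classical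
  rw [← Finset.sum_product']
  have hmaps : ∀ p ∈ osf N ×ˢ osf N, Nat.gcd p.1 p.2 ∈ osf N := by
    intro p hp
    rw [Finset.mem_product, mem_osf, mem_osf] at hp
    rw [mem_osf]
    obtain ⟨⟨⟨h1, h2⟩, h3, h4⟩, -⟩ := hp
    have hd : Nat.gcd p.1 p.2 ∣ p.1 := Nat.gcd_dvd_left _ _
    refine ⟨⟨Nat.pos_of_dvd_of_pos hd (by omega), (Nat.le_of_dvd (by omega) hd).trans h2⟩,
      h3.of_dvd_nat hd, h4.squarefree_of_dvd hd⟩
  rw [← Finset.sum_fiberwise_of_maps_to hmaps]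
  refine Finset.sum_congr rfl fun g hg => ?_
  have hg' := mem_osf.1 hg
  have hg0 : 0 < g := by omega
  rw [← Finset.sum_product' (f := fun n1 n2 => if Cop g n1 n2 then F (g * n1) (g * n2) else 0),
    ← Finset.sum_filter]
  refine Finset.sum_nbij' (fun p => (p.1 / g, p.2 / g)) (fun p => (g * p.1, g * p.2)) ?_ ?_ ?_ ?_ ?_
  · rintro ⟨n1, n2⟩ hp
    rw [Finset.mem_filter, Finset.mem_product, mem_osf, mem_osf] at hp
    obtain ⟨⟨⟨⟨h1, h2⟩, h3, h4⟩, ⟨h5, h6⟩, h7, h8⟩, h9⟩ := hp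
    simp only at h1 h2 h3 h4 h5 h6 h7 h8 h9
    obtain ⟨m1, rfl⟩ : g ∣ n1 := h9 ▸ Nat.gcd_dvd_left _ _
    obtain ⟨m2, rfl⟩ : g ∣ n2 := h9 ▸ Nat.gcd_dvd_right _ _
    rw [Nat.gcd_mul_left] at h9
    have h10 : Nat.gcd m1 m2 = 1 := by
      have : g * Nat.gcd m1 m2 = g * 1 := by rw [h9, mul_one]
      exact Nat.eq_of_mul_eq_mul_left hg0 this
    rw [Nat.squarefree_mul_iff] at h4 h8
    simp only [Finset.mem_filter, Finset.mem_product, mem_osf, Nat.mul_div_cancel_left _ hg0]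
    have hm1 : 0 < m1 := Nat.pos_of_ne_zero (by rintro rfl; simp at h1)
    have hm2 : 0 < m2 := Nat.pos_of_ne_zero (by rintro rfl; simp at h5)
    refine ⟨⟨⟨⟨hm1, ?_⟩, (Nat.odd_mul.1 h3).2, h4.2.2⟩, ⟨hm2, ?_⟩, (Nat.odd_mul.1 h7).2, h8.2.2⟩,
      h10, h4.1.symm, h8.1.symm⟩
    · rw [Nat.le_div_iff_mul_le hg0, mul_comm]
      exact h2
    · rw [Nat.le_div_iff_mul_le hg0, mul_comm]
      exact h6
  · rintro ⟨n1, n2⟩ hp
    rw [Finset.mem_filter, Finset.mem_product, mem_osf, mem_osf] at hp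
    obtain ⟨⟨⟨⟨h1, h2⟩, h3, h4⟩, ⟨h5, h6⟩, h7, h8⟩, h9, h10, h11⟩ := hp
    simp only at h1 h2 h3 h4 h5 h6 h7 h8 h9 h10 h11
    simp only [Finset.mem_filter, Finset.mem_product, mem_osf]
    rw [Nat.le_div_iff_mul_le hg0, mul_comm] at h2 h6
    refine ⟨⟨⟨⟨Nat.mul_pos hg0 h1, h2⟩, Nat.odd_mul.2 ⟨hg'.2.1, h3⟩,
      Nat.squarefree_mul_iff.2 ⟨h10.symm, hg'.2.2, h4⟩⟩,
      ⟨Nat.mul_pos hg0 h5, h6⟩, Nat.odd_mul.2 ⟨hg'.2.1, h7⟩,
      Nat.squarefree_mul_iff.2 ⟨h11.symm, hg'.2.2, h8⟩⟩, ?_⟩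
    rw [Nat.gcd_mul_left, Nat.Coprime.gcd_eq_one h9, mul_one]
  · rintro ⟨n1, n2⟩ hp
    rw [Finset.mem_filter] at hp
    have h9 := hp.2
    simp only at h9
    have hd1 : g ∣ n1 := h9 ▸ Nat.gcd_dvd_left _ _
    have hd2 : g ∣ n2 := h9 ▸ Nat.gcd_dvd_right _ _
    simp only [Nat.mul_div_cancel' hd1, Nat.mul_div_cancel' hd2]
  · rintro ⟨n1, n2⟩ _
    simp only [Nat.mul_div_cancel_left _ hg0]
  · rintro ⟨n1, n2⟩ hp
    rw [Finset.mem_filter] at hp
    have h9 := hp.2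
    simp only at h9
    have hd1 : g ∣ n1 := h9 ▸ Nat.gcd_dvd_left _ _
    have hd2 : g ∣ n2 := h9 ▸ Nat.gcd_dvd_right _ _
    simp only [Nat.mul_div_cancel' hd1, Nat.mul_div_cancel' hd2]

/-! ### The identity for the terms -/

/-- the weight for the dual side -/
def κ1 (n : ℕ) : ℝ := Real.sqrt n

/-- coefficient for the dual side -/
def D1 (M : ℝ) (e : ℕ) (_ : ℤ) : ℝ := ((ArithmeticFunction.moebius e : ℤ) : ℝ) * (M / e)

/-- the argument for the dual side -/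
def z1 (M : ℝ) (e : ℕ) (k : ℤ) : ℝ := (e.gcd k.natAbs : ℝ) / Real.sqrt ((k.natAbs : ℝ) * M)

/-- coefficient for the subtracted side -/
def D2 (g : ℕ) (k : ℤ) : ℝ := if Nat.Coprime k.natAbs g then 1 else 0

/-- the argument for the subtracted side -/
def z2 (M : ℝ) (k : ℤ) : ℝ := Real.sqrt (M / k.natAbs)

lemma Phr_eq (r : ℕ) (Z : ℝ) : Phr r Z = Er r Z + cph * ((r.totient : ℝ) / r) * Z := by
  unfold Er
  ring

lemma Phr_sq (g q : ℕ) (Z : ℝ) : Phr (g * g * q) Z = Phr (g * q) Z := by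
  unfold Phr
  refine tsum_congr fun b => ?_
  have : b.Coprime (g * g * q) ↔ b.Coprime (g * q) := by
    rw [Nat.coprime_mul_iff_right, Nat.coprime_mul_iff_right, Nat.coprime_mul_iff_right, and_self]
  simp only [this]

lemma js_sq (k : ℤ) (g q : ℕ) (hg : g ≠ 0) (hq : q ≠ 0) :
    js k (g * g * q) = if Nat.Coprime k.natAbs g then js k q else 0 := by
  unfold js
  have : NeZero g := ⟨hg⟩
  have : NeZero q := ⟨hq⟩
  have : NeZero (g * g) := ⟨Nat.mul_ne_zero hg hg⟩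
  rw [jacobiSym.mul_right, jacobiSym.mul_right]
  split_ifs with h
  · have h1 : jacobiSym k g ^ 2 = 1 := jacobiSym.sq_one (by
      rw [Int.gcd_eq_natAbs, Int.natAbs_natCast]
      exact h)
    have h2 : jacobiSym k g * jacobiSym k g = 1 := by rw [← pow_two]; exact h1
    rw [h2, one_mul]
  · have h1 : jacobiSym k g = 0 := by
      rw [jacobiSym.eq_zero_iff_not_coprime]
      rw [Int.gcd_eq_natAbs, Int.natAbs_natCast]
      exact h
    rw [h1]
    simp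

lemma bracket_eq (hHC : SHC) (M : ℝ) (hM : 0 < M) (k : ℤ) (hk : Squarefree k.natAbs) (g n1 n2 : ℕ)
    (hg : Squarefree g) (h1 : n1 ≠ 0) (h2 : n2 ≠ 0) (hcop : Cop g n1 n2) :
    js k (n1 * n2) * ThK M k g (n1 * n2) -
      js k (g * g * (n1 * n2)) * Phr (g * g * (n1 * n2)) (Real.sqrt (M / k.natAbs)) =
    (∑ e ∈ g.divisors, js k (n1 * n2) * (D1 M e k / (κ1 n1 * κ1 n2) *
      Er (1 * (n1 * n2)) (z1 M e k * (κ1 n1 * κ1 n2)))) -
      js k (n1 * n2) * (D2 g k / (1 * 1) * Er (g * (n1 * n2)) (z2 M k * (1 * 1))) := by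
  have hk0 : k.natAbs ≠ 0 := fun h => by
    rw [h] at hk
    exact not_squarefree_zero hk
  have hg0 : g ≠ 0 := hg.ne_zero
  have hq0 : n1 * n2 ≠ 0 := Nat.mul_ne_zero h1 h2
  have hgq : g.Coprime (n1 * n2) := Nat.Coprime.mul_right hcop.2.1.symm hcop.2.2.symm
  have hkr : (0 : ℝ) < k.natAbs := by exact_mod_cast Nat.pos_of_ne_zero hk0
  have hn1 : (0 : ℝ) < n1 := by exact_mod_cast Nat.pos_of_ne_zero h1
  have hn2 : (0 : ℝ) < n2 := by exact_mod_cast Nat.pos_of_ne_zero h2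
  have hC := hHC M hM k hk g (n1 * n2) hg hq0 hgq
  rw [js_sq k g _ hg0 hq0, Phr_sq]
  -- the kernel
  have e1 : ThK M k g (n1 * n2) = (∑ e ∈ g.divisors, (D1 M e k / (κ1 n1 * κ1 n2) *
      Er (1 * (n1 * n2)) (z1 M e k * (κ1 n1 * κ1 n2)))) +
      cph * ∑ e ∈ g.divisors, ((ArithmeticFunction.moebius e : ℤ) : ℝ) *
        (M / (e * Real.sqrt ((n1 * n2 : ℕ) : ℝ))) *
        ((((n1 * n2).totient : ℝ) / ((n1 * n2 : ℕ) : ℝ)) *
        Real.sqrt ((e.gcd k.natAbs : ℝ) ^ 2 * ((n1 * n2 : ℕ) : ℝ) / ((k.natAbs : ℝ) * M))) := by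
    unfold ThK
    rw [Finset.mul_sum, ← Finset.sum_add_distrib]
    refine Finset.sum_congr rfl fun e he => ?_
    have he0 : (e : ℝ) ≠ 0 := by
      have := Nat.pos_of_mem_divisors he
      positivity
    rw [Phr_eq]
    have e2 : Real.sqrt ((n1 * n2 : ℕ) : ℝ) = κ1 n1 * κ1 n2 := by
      unfold κ1
      push_cast
      rw [Real.sqrt_mul hn1.le]
    have e3 : Real.sqrt ((e.gcd k.natAbs : ℝ) ^ 2 * ((n1 * n2 : ℕ) : ℝ) / ((k.natAbs : ℝ) * M)) =
        z1 M e k * (κ1 n1 * κ1 n2) := by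
      unfold z1
      rw [← e2, Real.sqrt_div (by positivity), Real.sqrt_mul (by positivity),
        Real.sqrt_sq (by positivity)]
      ring
    rw [e3, e2, one_mul]
    have e4 : ((ArithmeticFunction.moebius e : ℤ) : ℝ) * (M / (e * (κ1 n1 * κ1 n2))) =
        D1 M e k / (κ1 n1 * κ1 n2) := by
      unfold D1
      rw [div_mul_eq_div_div]
      ring
    rw [e4]
    ring
  rw [e1, hC, Phr_eq (g * (n1 * n2))]
  unfold D2 z2
  by_cases hkg : Nat.Coprime k.natAbs g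
  · rw [if_pos hkg, if_pos hkg, if_pos hkg, ← Finset.mul_sum]
    simp only [mul_one, div_one]
    generalize (∑ e ∈ g.divisors, D1 M e k / (κ1 n1 * κ1 n2) *
      Er (1 * (n1 * n2)) (z1 M e k * (κ1 n1 * κ1 n2))) = A
    ring
  · rw [if_neg hkg, if_neg hkg, if_neg hkg, ← Finset.mul_sum]
    generalize (∑ e ∈ g.divisors, D1 M e k / (κ1 n1 * κ1 n2) *
      Er (1 * (n1 * n2)) (z1 M e k * (κ1 n1 * κ1 n2))) = A
    ring

/-! ### Decomposition of the whole sum -/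

/-- the summand of the task -/
def brk (M : ℝ) (a : ℕ → ℂ) (k : ℤ) (n1 n2 : ℕ) : ℂ :=
  if n1 = n2 then 0 else
    a n1 * (starRingEnd ℂ) (a n2) *
      ((js k (n1 * n2 / Nat.gcd n1 n2 ^ 2) *
          ThK M k (Nat.gcd n1 n2) (n1 * n2 / Nat.gcd n1 n2 ^ 2) -
        js k (n1 * n2) * Phr (n1 * n2) (Real.sqrt (M / k.natAbs)) : ℝ) : ℂ)

lemma brk_eq (hHC : SHC) (M : ℝ) (hM : 0 < M) (a : ℕ → ℂ) (k : ℤ) (hk : Squarefree k.natAbs)
    (g n1 n2 : ℕ) (hg : Squarefree g) (h1 : n1 ≠ 0) (h2 : n2 ≠ 0) (hcop : Cop g n1 n2)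
    (hne : n1 ≠ n2) :
    brk M a k (g * n1) (g * n2) =
      (∑ e ∈ g.divisors, trm a g κ1 1 (D1 M e) (z1 M e) k n1 n2) -
        trm a g (fun _ => 1) g (D2 g) (z2 M) k n1 n2 := by
  have hg0 : g ≠ 0 := hg.ne_zero
  have hne' : g * n1 ≠ g * n2 := fun h => hne (Nat.eq_of_mul_eq_mul_left (Nat.pos_of_ne_zero hg0) h)
  have e1 : Nat.gcd (g * n1) (g * n2) = g := by
    rw [Nat.gcd_mul_left, Nat.Coprime.gcd_eq_one hcop.1, mul_one]
  have e2 : g * n1 * (g * n2) = g * g * (n1 * n2) := by ring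
  have e3 : g * g * (n1 * n2) / g ^ 2 = n1 * n2 := by
    rw [← pow_two]
    exact Nat.mul_div_cancel_left _ (by positivity)
  unfold brk
  rw [if_neg hne', e1, e2, e3, bracket_eq hHC M hM k hk g n1 n2 hg h1 h2 hcop]
  unfold trm
  rw [Complex.ofReal_sub, mul_sub, Complex.ofReal_sum, Finset.mul_sum]

lemma decomp (hHC : SHC) (M : ℝ) (hM : 0 < M) (N : ℕ) (a : ℕ → ℂ) (S : Finset ℤ)
    (hS : ∀ k ∈ S, Squarefree k.natAbs) :
    ∑ k ∈ S, ∑ n1 ∈ osf N, ∑ n2 ∈ osf N, brk M a k n1 n2 =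
      ∑ g ∈ osf N, ((∑ e ∈ g.divisors, ∑ k ∈ S, ∑ n1 ∈ osf (N / g), ∑ n2 ∈ osf (N / g),
        if Cop g n1 n2 ∧ n1 ≠ n2 then trm a g κ1 1 (D1 M e) (z1 M e) k n1 n2 else 0) -
        ∑ k ∈ S, ∑ n1 ∈ osf (N / g), ∑ n2 ∈ osf (N / g),
        if Cop g n1 n2 ∧ n1 ≠ n2 then trm a g (fun _ => 1) g (D2 g) (z2 M) k n1 n2 else 0) := by
  simp_rw [regroup N]
  rw [Finset.sum_comm]
  refine Finset.sum_congr rfl fun g hg => ?_
  rw [Finset.sum_comm (s := g.divisors), ← Finset.sum_sub_distrib]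
  refine Finset.sum_congr rfl fun k hk => ?_
  rw [Finset.sum_comm (s := g.divisors), ← Finset.sum_sub_distrib]
  refine Finset.sum_congr rfl fun n1 hn1 => ?_
  rw [Finset.sum_comm (s := g.divisors), ← Finset.sum_sub_distrib]
  refine Finset.sum_congr rfl fun n2 hn2 => ?_
  rw [mem_osf] at hg hn1 hn2
  by_cases hcop : Cop g n1 n2
  · rw [if_pos hcop]
    by_cases hne : n1 = n2
    · have h1 : ¬ (Cop g n1 n2 ∧ n1 ≠ n2) := fun h => h.2 hne
      simp only [if_neg h1]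
      subst hne
      simp [brk]
    · have h1 : Cop g n1 n2 ∧ n1 ≠ n2 := ⟨hcop, hne⟩
      simp only [if_pos h1]
      exact brk_eq hHC M hM a k (hS k hk) g n1 n2 hg.2.2 (by omega) (by omega) hcop hne
  · have h1 : ¬ (Cop g n1 n2 ∧ n1 ≠ n2) := fun h => hcop h.1
    simp only [if_neg h1, if_neg hcop]
    simp

/-! ### Estimates -/

/-- the quantities and their relations -/
structure Fx (β δ : ℝ) (M N HH : ℕ) (P Q : ℝ) : Prop where
  hβ1 : 1 < β
  hβ2 : β ≤ 2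
  hδ0 : 0 < δ
  hδ4 : δ ≤ 1 / 4
  hN : 2 ≤ N
  hNM : (N : ℝ) ≤ M
  hP1 : 1 ≤ P
  hQ1 : 1 ≤ Q
  hQX : Q ≤ (M : ℝ) * N
  hXP : ∀ x : ℝ, 0 ≤ x → x ≤ (M : ℝ) * N → x ^ δ ≤ P
  hXP2 : ∀ x : ℝ, 0 ≤ x → x ≤ ((M : ℝ) * N) ^ 2 → x ^ δ ≤ P ^ 2
  hXP3 : ∀ x : ℝ, 0 ≤ x → x ≤ 2 * ((M : ℝ) * N) ^ 3 → x ^ δ ≤ 2 * P ^ 3
  hH1 : 1 ≤ HH
  hHM : (HH : ℝ) * M ≤ (N : ℝ) ^ 2 * Q
  hb : ((N : ℝ) ^ 2 / M) ^ β ≤ N

section Est

variable {β δ : ℝ} {M N HH : ℕ} {P Q : ℝ} (F : Fx β δ M N HH P Q)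

include F

lemma Nr : (2 : ℝ) ≤ N := by exact_mod_cast F.hN

lemma Mr : (2 : ℝ) ≤ M := (Nr F).trans F.hNM

lemma N_le_X : (N : ℝ) ≤ (M : ℝ) * N := by
  have := Mr F
  have := Nr F
  nlinarith

lemma M_le_X : (M : ℝ) ≤ (M : ℝ) * N := by
  have := Mr F
  have := Nr F
  nlinarith

lemma HH_le : (HH : ℝ) ≤ (N : ℝ) ^ 2 * Q / M := by
  rw [le_div_iff₀ (by have := Mr F; linarith)]
  exact F.hHM

lemma HH_le_NQ : (HH : ℝ) ≤ N * Q := by
  refine (HH_le F).trans ?_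
  have h1 := Mr F
  have h2 := Nr F
  have h3 := F.hQ1
  rw [div_le_iff₀ (by linarith)]
  have h4 : (N : ℝ) * N ≤ N * M := mul_le_mul_of_nonneg_left F.hNM (by linarith)
  nlinarith

lemma HHr_pow : ((N : ℝ) ^ 2 * Q / M) ^ β ≤ N * Q ^ 2 := by
  have h1 := Mr F
  have h2 := Nr F
  have h3 := F.hQ1
  have e : (N : ℝ) ^ 2 * Q / M = (N : ℝ) ^ 2 / M * Q := by ring
  rw [e, Real.mul_rpow (by positivity) (by positivity)]
  refine mul_le_mul F.hb ?_ (by positivity) (by positivity)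
  rw [← Real.rpow_natCast Q 2]
  exact Real.rpow_le_rpow_of_exponent_le h3 (by exact_mod_cast F.hβ2)

lemma HH_pow : (HH : ℝ) ^ β ≤ N * Q ^ 2 := by
  refine (Real.rpow_le_rpow (by positivity) (HH_le F) ?_).trans (HHr_pow F)
  linarith [F.hβ1]

lemma lsB (hHR : SHR) {C1 : ℝ} (hC0 : 0 < C1)
    (hC1 : ∀ M N : ℕ, 1 ≤ M → 1 ≤ N → LSB M N (C1 * ((M : ℝ) * N) ^ δ * (M + (N : ℝ) ^ β)))
    {g K : ℕ} (hg : g ∈ osf N) (hK1 : 1 ≤ K) (hK : (K : ℝ) ≤ 2 * HH) :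
    LSB K (N / g) (128 * C1 * P ^ 3 * ((N : ℝ) / g + (K : ℝ) ^ β)) := by
  rw [mem_osf] at hg
  have hg0 : 0 < g := by omega
  have hgr : (1 : ℝ) ≤ g := by exact_mod_cast hg0
  have hNg1 : 1 ≤ N / g := by
    rw [Nat.le_div_iff_mul_le hg0]
    omega
  have hP := F.hP1
  have h1 := hC1 (N / g) K hNg1 hK1
  have h2 := (hHR (N / g) K _ (by positivity) h1).2
  have hNg2 : ((N / g : ℕ) : ℝ) ≤ (N : ℝ) / g := Nat.cast_div_le
  have hNg3 : (N : ℝ) / g ≤ N := div_le_self (by positivity) hgr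
  have hX1 : 1 ≤ (M : ℝ) * N := by
    have := Mr F
    have := Nr F
    nlinarith
  have h3 : (((N / g : ℕ) : ℝ) * K) ^ δ ≤ 2 * P ^ 3 := by
    refine F.hXP3 _ (by positivity) ?_
    have h4 : (K : ℝ) ≤ 2 * (((M : ℝ) * N) * ((M : ℝ) * N)) := by
      refine hK.trans ?_
      have := HH_le_NQ F
      have h5 : (N : ℝ) * Q ≤ ((M : ℝ) * N) * ((M : ℝ) * N) :=
        mul_le_mul (N_le_X F) F.hQX (by linarith [F.hQ1]) (by positivity)
      linarith
    calc ((N / g : ℕ) : ℝ) * K ≤ ((M : ℝ) * N) * (2 * (((M : ℝ) * N) * ((M : ℝ) * N))) :=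
          mul_le_mul (hNg2.trans (hNg3.trans (N_le_X F))) h4 (by positivity) (by positivity)
      _ = 2 * ((M : ℝ) * N) ^ 3 := by ring
  intro b
  refine (h2 b).trans ?_
  refine mul_le_mul_of_nonneg_right ?_ (by positivity)
  calc 64 * (C1 * (((N / g : ℕ) : ℝ) * K) ^ δ * (((N / g : ℕ) : ℝ) + (K : ℝ) ^ β)) ≤
        64 * (C1 * (2 * P ^ 3) * ((N : ℝ) / g + (K : ℝ) ^ β)) := by
        refine mul_le_mul_of_nonneg_left ?_ (by norm_num)
        refine mul_le_mul (mul_le_mul_of_nonneg_left h3 hC0.le) ?_ (by positivity) (by positivity)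
        linarith
    _ = _ := by ring

omit F in
lemma AA_ge {a : ℕ → ℂ} {g : ℕ} (hg : g ∈ osf N) : ‖a g‖ ^ 2 ≤ AA N a g := by
  unfold AA
  have h1 : (fun n => if g ∣ n then (n.divisors.card : ℝ) * ‖a n‖ ^ 2 else 0) g ≤
      ∑ n ∈ osf N, (if g ∣ n then (n.divisors.card : ℝ) * ‖a n‖ ^ 2 else 0) := by
    refine Finset.single_le_sum (f := fun n => if g ∣ n then (n.divisors.card : ℝ) * ‖a n‖ ^ 2
      else 0) (fun n _ => ?_) hg
    split_ifs <;> positivity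
  refine le_trans ?_ h1
  simp only [dvd_refl, if_true]
  have h2 : (1 : ℝ) ≤ (g.divisors.card : ℝ) := by
    have h3 : g ∈ g.divisors := by
      rw [mem_osf] at hg
      rw [Nat.mem_divisors]
      exact ⟨dvd_rfl, by omega⟩
    exact_mod_cast Finset.card_pos.2 ⟨g, h3⟩
  have h3 : 0 ≤ ‖a g‖ ^ 2 := by positivity
  nlinarith

lemma tw_bound {Cd : ℝ} (hC : 0 < Cd)
    (hCd : ∀ n : ℕ, n ≠ 0 → (n.divisors.card : ℝ) ≤ Cd * (n : ℝ) ^ δ) {n : ℕ} (hn : n ≠ 0)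
    (hnN : n ≤ N) : (n.divisors.card : ℝ) ≤ Cd * P := by
  refine (hCd n hn).trans ?_
  refine mul_le_mul_of_nonneg_left ?_ hC.le
  refine F.hXP _ (by positivity) ?_
  have : (n : ℝ) ≤ N := by exact_mod_cast hnN
  exact this.trans (N_le_X F)

/-- bound for the coefficients of the dual side -/
lemma D1_bound {e g : ℕ} (he : e ∈ g.divisors) (k : ℤ) (hk : k.natAbs ≠ 0) (σ Y : ℝ) (h0 : 0 < σ)
    (h1 : σ ≤ 1) (hY : 0 < Y) (hYk : Y ≤ Real.sqrt ((k.natAbs : ℝ) * M)) :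
    |D1 M e k| * z1 M e k ^ σ ≤ M * Y ^ (-σ) := by
  have hM := Mr F
  have he0 : 0 < e := Nat.pos_of_mem_divisors he
  have he1 : (1 : ℝ) ≤ e := by exact_mod_cast he0
  have hgcd : (e.gcd k.natAbs : ℝ) ≤ e := by exact_mod_cast Nat.gcd_le_left _ he0
  have hS : 0 < Real.sqrt ((k.natAbs : ℝ) * M) := hY.trans_le hYk
  have hmu : |((ArithmeticFunction.moebius e : ℤ) : ℝ)| ≤ 1 := by
    rw [← Int.cast_abs]
    exact_mod_cast ArithmeticFunction.abs_moebius_le_one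
  have e1 : |D1 M e k| ≤ M / e := by
    unfold D1
    rw [abs_mul, abs_of_nonneg (by positivity : (0 : ℝ) ≤ M / e)]
    calc _ ≤ 1 * ((M : ℝ) / e) := mul_le_mul_of_nonneg_right hmu (by positivity)
      _ = _ := one_mul _
  have e2 : z1 M e k ^ σ ≤ e * Y ^ (-σ) := by
    have h3 : z1 M e k ≤ e / Y := by
      unfold z1
      exact div_le_div₀ (by positivity) hgcd hY hYk
    have h4 : 0 ≤ z1 M e k := by unfold z1; positivity
    calc z1 M e k ^ σ ≤ (e / Y) ^ σ := Real.rpow_le_rpow h4 h3 h0.le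
      _ = (e : ℝ) ^ σ * Y ^ (-σ) := by
          rw [Real.div_rpow (by positivity) hY.le, Real.rpow_neg hY.le]
          ring
      _ ≤ e * Y ^ (-σ) := by
          refine mul_le_mul_of_nonneg_right ?_ (by positivity)
          calc (e : ℝ) ^ σ ≤ (e : ℝ) ^ (1 : ℝ) := Real.rpow_le_rpow_of_exponent_le he1 h1
            _ = e := Real.rpow_one _
  calc |D1 M e k| * z1 M e k ^ σ ≤ (M / e) * (e * Y ^ (-σ)) :=
        mul_le_mul e1 e2 (by have : 0 ≤ z1 M e k := by unfold z1; positivity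
                             positivity) (by positivity)
    _ = M * Y ^ (-σ) := by field_simp

lemma X_ge_one : 1 ≤ (M : ℝ) * N := by
  have := Mr F
  have := Nr F
  nlinarith

omit F in
lemma card_S {K : ℕ} (hK1 : 1 ≤ K) (S : Finset ℤ) (hS : ∀ k ∈ S, k.natAbs ≤ K) :
    (S.card : ℝ) ≤ 3 * K := by
  have h1 : S ⊆ Icc (-(K : ℤ)) K := by
    intro k hk
    have := hS k hk
    rw [Finset.mem_Icc]
    omega
  have h2 := Finset.card_le_card h1
  rw [Int.card_Icc] at h2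
  have h3 : ((K : ℤ) + 1 - -(K : ℤ)).toNat = 2 * K + 1 := by omega
  rw [h3] at h2
  have h4 : S.card ≤ 3 * K := by omega
  exact_mod_cast h4

/-- case A: `K M g² ≤ N²` -/
lemma caseA (hHB : SHB) (hHR : SHR) {G : ℝ → ℂ} (hG : Rep δ G) {C1 Cd : ℝ} (hC0 : 0 < C1)
    (hC1 : ∀ M N : ℕ, 1 ≤ M → 1 ≤ N → LSB M N (C1 * ((M : ℝ) * N) ^ δ * (M + (N : ℝ) ^ β)))
    (hCd0 : 0 < Cd) (hCd : ∀ n : ℕ, n ≠ 0 → (n.divisors.card : ℝ) ≤ Cd * (n : ℝ) ^ δ)
    {a : ℕ → ℂ} (ha : ∀ n, a n ≠ 0 → N < 2 * n)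
    {g K e : ℕ} (hg : g ∈ osf N) (he : e ∈ g.divisors) (hK1 : 1 ≤ K) (hK : (K : ℝ) ≤ 2 * HH)
    (S : Finset ℤ) (hS : ∀ k ∈ S, Squarefree k.natAbs ∧ k.natAbs ≤ K)
    (hA : (K : ℝ) * M * (g : ℝ) ^ 2 ≤ (N : ℝ) ^ 2) :
    ‖∑ k ∈ S, ∑ n1 ∈ osf (N / g), ∑ n2 ∈ osf (N / g),
      if Cop g n1 n2 ∧ n1 ≠ n2 then trm a g κ1 1 (D1 M e) (z1 M e) k n1 n2 else 0‖ ≤
      (∫ t, ‖G t‖) * ((2048 * Cd ^ 2 * C1 + 12) * P ^ 7 * M * AA N a g) := by
  have hM := Mr F
  have hN := Nr F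
  have hP := F.hP1
  have hδ0 := F.hδ0
  have hg' := mem_osf.1 hg
  have hg0 : 0 < g := by omega
  have hgr : (1 : ℝ) ≤ g := by exact_mod_cast hg0
  have hKr : (1 : ℝ) ≤ K := by exact_mod_cast hK1
  have hI : 0 ≤ ∫ t, ‖G t‖ := integral_nonneg fun t => norm_nonneg _
  have hls := lsB F hHR hC0 hC1 hg hK1 hK
  have hAA := AA_nonneg N a g
  set B : ℝ := 128 * C1 * P ^ 3 * ((N : ℝ) / g + (K : ℝ) ^ β) with hB
  have hB0 : 0 ≤ B := by positivity
  set U : ℝ := Cd * P * (P * Real.sqrt (2 * g / N)) with hU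
  have hU0 : 0 ≤ U := by positivity
  have hblk : Blk δ N K g B a U κ1 1 S (D1 M e) (z1 M e) M := by
    refine ⟨hg, hB0, hls, hU0, ?_, ?_, one_dvd g, ?_, hS, ?_, by linarith, ?_⟩
    · intro n hn
      unfold κ1
      have : (0 : ℝ) < n := by exact_mod_cast Nat.pos_of_ne_zero hn
      positivity
    · unfold κ1
      simp
    · intro n hn han
      have hn' := mem_osf.1 hn
      have hn0 : n ≠ 0 := by omega
      have hnr : (1 : ℝ) ≤ n := by exact_mod_cast (by omega : 1 ≤ n)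
      have hnN : n ≤ N := hn'.1.2.trans (Nat.div_le_self _ _)
      have hnNr : (n : ℝ) ≤ N := by exact_mod_cast hnN
      have h1 : tw n ≤ Cd * P := (tw_le n hn0).trans (tw_bound F hCd0 hCd hn0 hnN)
      have h2 := ha _ han
      have h2r : (N : ℝ) ≤ 2 * (g * n) := by exact_mod_cast h2.le
      have hs1 : 1 ≤ Real.sqrt n := by
        rw [Real.one_le_sqrt]
        exact hnr
      have h3 : κ1 n ^ (δ - 1) ≤ P * Real.sqrt (2 * g / N) := by
        unfold κ1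
        rw [Real.rpow_sub_one (by positivity)]
        have h4 : Real.sqrt n ^ δ ≤ P := by
          refine F.hXP _ (by positivity) ?_
          have : Real.sqrt n ≤ n := by
            rw [Real.sqrt_le_left (by positivity)]
            nlinarith
          exact this.trans (hnNr.trans (N_le_X F))
        have h5 : (Real.sqrt n)⁻¹ ≤ Real.sqrt (2 * g / N) := by
          rw [← Real.sqrt_inv]
          apply Real.sqrt_le_sqrt
          rw [inv_eq_one_div, div_le_div_iff₀ (by positivity) (by positivity)]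
          linarith
        rw [div_eq_mul_inv]
        exact mul_le_mul h4 h5 (by positivity) (by positivity)
      calc tw n * κ1 n ^ (δ - 1) ≤ (Cd * P) * (P * Real.sqrt (2 * g / N)) :=
            mul_le_mul h1 h3 (by unfold κ1; positivity) (by positivity)
        _ = U := by rw [hU]
    · intro k hk
      unfold z1
      have hk0 : k.natAbs ≠ 0 := fun h => by
        have := (hS k hk).1
        rw [h] at this
        exact not_squarefree_zero this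
      have h1 : (0 : ℝ) < k.natAbs := by exact_mod_cast Nat.pos_of_ne_zero hk0
      have h2 : 0 < e.gcd k.natAbs := Nat.gcd_pos_of_pos_left _ (Nat.pos_of_mem_divisors he)
      have h3 : (0 : ℝ) < (e.gcd k.natAbs : ℝ) := by exact_mod_cast h2
      positivity
    · intro k hk
      have hk0 : k.natAbs ≠ 0 := fun h => by
        have := (hS k hk).1
        rw [h] at this
        exact not_squarefree_zero this
      have h1 : (1 : ℝ) ≤ k.natAbs := by exact_mod_cast Nat.pos_of_ne_zero hk0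
      have h2 := D1_bound F he k hk0 δ 1 hδ0 (by linarith [F.hδ4]) one_pos (by
        rw [Real.one_le_sqrt]
        nlinarith)
      rwa [Real.one_rpow, mul_one] at h2
  refine (block hHB hG hδ0 hblk).trans ?_
  refine mul_le_mul_of_nonneg_left ?_ hI
  rw [tw_one, one_mul]
  -- the first part
  have hgK : (g : ℝ) * (K : ℝ) ^ β ≤ N := by
    have h1 : (K : ℝ) ≤ ((N : ℝ) ^ 2 / M) / (g : ℝ) ^ 2 := by
      rw [le_div_iff₀ (by positivity), le_div_iff₀ (by linarith)]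
      calc (K : ℝ) * (g : ℝ) ^ 2 * M = (K : ℝ) * M * (g : ℝ) ^ 2 := by ring
        _ ≤ _ := hA
    have h2 : (K : ℝ) ^ β ≤ N / ((g : ℝ) ^ 2) ^ β := by
      refine (Real.rpow_le_rpow (by positivity) h1 (by linarith [F.hβ1])).trans ?_
      rw [Real.div_rpow (by positivity) (by positivity)]
      exact div_le_div_of_nonneg_right F.hb (by positivity)
    have h3 : (g : ℝ) ≤ ((g : ℝ) ^ 2) ^ β := by
      calc (g : ℝ) ≤ (g : ℝ) ^ 2 := by nlinarith
        _ = ((g : ℝ) ^ 2) ^ (1 : ℝ) := (Real.rpow_one _).symm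
        _ ≤ _ := Real.rpow_le_rpow_of_exponent_le (by nlinarith) F.hβ1.le
    calc (g : ℝ) * (K : ℝ) ^ β ≤ g * (N / ((g : ℝ) ^ 2) ^ β) :=
          mul_le_mul_of_nonneg_left h2 (by positivity)
      _ = N * (g / ((g : ℝ) ^ 2) ^ β) := by ring
      _ ≤ N * 1 := by
          refine mul_le_mul_of_nonneg_left ?_ (by positivity)
          rw [div_le_one (by positivity)]
          exact h3
      _ = N := mul_one _
  have hUB : 4 * U ^ 2 * B ≤ 2048 * Cd ^ 2 * C1 * P ^ 7 := by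
    have h1 : U ^ 2 = Cd ^ 2 * P ^ 4 * (2 * g / N) := by
      rw [hU, mul_pow, mul_pow, mul_pow, Real.sq_sqrt (by positivity)]
      ring
    have h2 : (2 * g / N : ℝ) * ((N : ℝ) / g + (K : ℝ) ^ β) ≤ 4 := by
      have h3 : (2 * g / N : ℝ) * ((N : ℝ) / g + (K : ℝ) ^ β) =
          2 + 2 * ((g : ℝ) * (K : ℝ) ^ β) / N := by
        field_simp
      rw [h3]
      have h4 : 2 * ((g : ℝ) * (K : ℝ) ^ β) / N ≤ 2 := by
        rw [div_le_iff₀ (by positivity)]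
        linarith
      linarith
    rw [h1, hB]
    calc 4 * (Cd ^ 2 * P ^ 4 * (2 * g / N)) * (128 * C1 * P ^ 3 * ((N : ℝ) / g + (K : ℝ) ^ β)) =
          512 * Cd ^ 2 * C1 * P ^ 7 * ((2 * g / N : ℝ) * ((N : ℝ) / g + (K : ℝ) ^ β)) := by ring
      _ ≤ 512 * Cd ^ 2 * C1 * P ^ 7 * 4 := mul_le_mul_of_nonneg_left h2 (by positivity)
      _ = _ := by ring
  have hcard : (S.card : ℝ) * ‖a g‖ ^ 2 ≤ 12 * AA N a g := by
    by_cases hag : a g = 0
    · rw [hag, norm_zero]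
      simp
      positivity
    · have h1 := ha g hag
      have h1r : (N : ℝ) ≤ 2 * g := by exact_mod_cast h1.le
      have h2 : (K : ℝ) ≤ 4 := by
        have h3 : (K : ℝ) * (g : ℝ) ^ 2 ≤ 4 * (g : ℝ) ^ 2 := by
          have h4 : (K : ℝ) * (g : ℝ) ^ 2 ≤ (K : ℝ) * M * (g : ℝ) ^ 2 := by
            have : (K : ℝ) * 1 ≤ (K : ℝ) * M := mul_le_mul_of_nonneg_left (by linarith)
              (by positivity)
            rw [mul_one] at this
            exact mul_le_mul_of_nonneg_right this (by positivity)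
          nlinarith
        exact le_of_mul_le_mul_right h3 (by positivity)
      have h5 := card_S hK1 S (fun k hk => (hS k hk).2)
      have h6 := AA_ge (a := a) hg
      have h7 : (S.card : ℝ) ≤ 12 := by linarith
      exact mul_le_mul h7 h6 (by positivity) (by norm_num)
  have hP7 : 1 ≤ P ^ 7 := one_le_pow₀ hP
  calc (M : ℝ) * (4 * U ^ 2 * B * AA N a g + S.card * ‖a g‖ ^ 2) ≤
        M * (2048 * Cd ^ 2 * C1 * P ^ 7 * AA N a g + 12 * AA N a g) := by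
        refine mul_le_mul_of_nonneg_left ?_ (by linarith)
        exact add_le_add (mul_le_mul_of_nonneg_right hUB hAA) hcard
    _ ≤ M * (2048 * Cd ^ 2 * C1 * P ^ 7 * AA N a g + 12 * P ^ 7 * AA N a g) := by
        refine mul_le_mul_of_nonneg_left ?_ (by linarith)
        have : 12 * AA N a g ≤ 12 * P ^ 7 * AA N a g := by
          have : 12 * 1 ≤ 12 * P ^ 7 := by linarith
          nlinarith
        linarith
    _ = _ := by ring

/-- case B: `N² < K M g²` -/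
lemma caseB (hHB : SHB) (hHR : SHR) {G : ℝ → ℂ} (hG : Rep (1 - δ) G) {C1 Cd : ℝ} (hC0 : 0 < C1)
    (hC1 : ∀ M N : ℕ, 1 ≤ M → 1 ≤ N → LSB M N (C1 * ((M : ℝ) * N) ^ δ * (M + (N : ℝ) ^ β)))
    (hCd0 : 0 < Cd) (hCd : ∀ n : ℕ, n ≠ 0 → (n.divisors.card : ℝ) ≤ Cd * (n : ℝ) ^ δ)
    {a : ℕ → ℂ}
    {g K e : ℕ} (hg : g ∈ osf N) (he : e ∈ g.divisors) (hK1 : 1 ≤ K) (hK : (K : ℝ) ≤ 2 * HH)
    (S : Finset ℤ) (hS : ∀ k ∈ S, Squarefree k.natAbs ∧ k.natAbs ≤ K)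
    (hS2 : ∀ k ∈ S, K ≤ 2 * k.natAbs)
    (hA : (N : ℝ) ^ 2 < (K : ℝ) * M * (g : ℝ) ^ 2) :
    ‖∑ k ∈ S, ∑ n1 ∈ osf (N / g), ∑ n2 ∈ osf (N / g),
      if Cop g n1 n2 ∧ n1 ≠ n2 then trm a g κ1 1 (D1 M e) (z1 M e) k n1 n2 else 0‖ ≤
      (∫ t, ‖G t‖) * ((3072 * Cd ^ 2 * C1 + 6) * P ^ 7 * Q ^ 2 * M * AA N a g) := by
  have hM := Mr F
  have hN := Nr F
  have hP := F.hP1
  have hQ := F.hQ1
  have hδ0 := F.hδ0
  have hδ4 := F.hδ4
  have hg' := mem_osf.1 hg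
  have hg0 : 0 < g := by omega
  have hgr : (1 : ℝ) ≤ g := by exact_mod_cast hg0
  have hKr : (1 : ℝ) ≤ K := by exact_mod_cast hK1
  have hI : 0 ≤ ∫ t, ‖G t‖ := integral_nonneg fun t => norm_nonneg _
  have hls := lsB F hHR hC0 hC1 hg hK1 hK
  have hAA := AA_nonneg N a g
  have hX1 := X_ge_one F
  set B : ℝ := 128 * C1 * P ^ 3 * ((N : ℝ) / g + (K : ℝ) ^ β) with hB
  have hB0 : 0 ≤ B := by positivity
  set U : ℝ := Cd * P with hU
  have hU0 : 0 ≤ U := by positivity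
  set Y : ℝ := Real.sqrt ((K : ℝ) * M / 2) with hY
  have hY2 : Y ^ 2 = (K : ℝ) * M / 2 := by
    rw [hY, Real.sq_sqrt (by positivity)]
  have hY0 : 0 < Y := by
    rw [hY]
    positivity
  have hHr := HH_le F
  have hY1 : Y ^ δ ≤ P ^ 2 := by
    refine F.hXP2 _ hY0.le ?_
    rw [hY, Real.sqrt_le_iff]
    refine ⟨by positivity, ?_⟩
    have h1 : (K : ℝ) * M / 2 ≤ (HH : ℝ) * M := by
      have := mul_le_mul_of_nonneg_right hK (by linarith : (0 : ℝ) ≤ M)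
      linarith
    have h2 : (N : ℝ) ^ 2 * Q ≤ ((M : ℝ) * N) ^ 2 * ((M : ℝ) * N) := by
      refine mul_le_mul ?_ F.hQX (by linarith) (by positivity)
      exact pow_le_pow_left₀ (by positivity) (N_le_X F) 2
    have h3 : ((M : ℝ) * N) ^ 3 ≤ ((M : ℝ) * N) ^ 4 := pow_le_pow_right₀ hX1 (by norm_num)
    calc (K : ℝ) * M / 2 ≤ (N : ℝ) ^ 2 * Q := h1.trans F.hHM
      _ ≤ ((M : ℝ) * N) ^ 2 * ((M : ℝ) * N) := h2
      _ = ((M : ℝ) * N) ^ 3 := by ring
      _ ≤ ((M : ℝ) * N) ^ 4 := h3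
      _ = (((M : ℝ) * N) ^ 2) ^ 2 := by ring
  have hblk : Blk (1 - δ) N K g B a U κ1 1 S (D1 M e) (z1 M e) (M * (P ^ 2 / Y)) := by
    refine ⟨hg, hB0, hls, hU0, ?_, ?_, one_dvd g, ?_, hS, ?_, by positivity, ?_⟩
    · intro n hn
      unfold κ1
      have : (0 : ℝ) < n := by exact_mod_cast Nat.pos_of_ne_zero hn
      positivity
    · unfold κ1
      simp
    · intro n hn han
      have hn' := mem_osf.1 hn
      have hn0 : n ≠ 0 := by omega
      have hnr : (1 : ℝ) ≤ n := by exact_mod_cast (by omega : 1 ≤ n)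
      have hnN : n ≤ N := hn'.1.2.trans (Nat.div_le_self _ _)
      have h1 : tw n ≤ Cd * P := (tw_le n hn0).trans (tw_bound F hCd0 hCd hn0 hnN)
      have hs1 : 1 ≤ Real.sqrt n := by
        rw [Real.one_le_sqrt]
        exact hnr
      have h3 : κ1 n ^ (1 - δ - 1) ≤ 1 := by
        unfold κ1
        exact Real.rpow_le_one_of_one_le_of_nonpos hs1 (by linarith)
      calc tw n * κ1 n ^ (1 - δ - 1) ≤ (Cd * P) * 1 :=
            mul_le_mul h1 h3 (by unfold κ1; positivity) (by positivity)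
        _ = U := by rw [hU, mul_one]
    · intro k hk
      unfold z1
      have hk0 : k.natAbs ≠ 0 := fun h => by
        have := (hS k hk).1
        rw [h] at this
        exact not_squarefree_zero this
      have h1 : (0 : ℝ) < k.natAbs := by exact_mod_cast Nat.pos_of_ne_zero hk0
      have h2 : 0 < e.gcd k.natAbs := Nat.gcd_pos_of_pos_left _ (Nat.pos_of_mem_divisors he)
      have h3 : (0 : ℝ) < (e.gcd k.natAbs : ℝ) := by exact_mod_cast h2
      positivity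
    · intro k hk
      have hk0 : k.natAbs ≠ 0 := fun h => by
        have := (hS k hk).1
        rw [h] at this
        exact not_squarefree_zero this
      have h1 : (K : ℝ) ≤ 2 * k.natAbs := by exact_mod_cast hS2 k hk
      have h2 := D1_bound F he k hk0 (1 - δ) Y (by linarith) (by linarith) hY0 (by
        rw [hY]
        apply Real.sqrt_le_sqrt
        nlinarith)
      refine h2.trans ?_
      refine mul_le_mul_of_nonneg_left ?_ (by linarith)
      have e1 : -(1 - δ) = δ - 1 := by ring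
      rw [e1, Real.rpow_sub_one hY0.ne']
      exact div_le_div_of_nonneg_right hY1 hY0.le
  refine (block hHB hG (by linarith) hblk).trans ?_
  refine mul_le_mul_of_nonneg_left ?_ hI
  rw [tw_one, one_mul]
  -- three inequalities
  have b1 : (N : ℝ) / g ≤ 2 * Y := by
    rw [← sq_le_sq₀ (by positivity) (by positivity), div_pow, mul_pow, hY2,
      div_le_iff₀ (by positivity)]
    nlinarith
  have b3 : (K : ℝ) ≤ 2 * Q ^ 2 * Y := by
    rw [← sq_le_sq₀ (by positivity) (by positivity), mul_pow, hY2]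
    have h1 : (K : ℝ) ≤ 2 * Q ^ 4 * M := by
      have h2 := HH_le_NQ F
      have h3 : (N : ℝ) * Q ≤ M * Q ^ 4 := by
        refine mul_le_mul F.hNM ?_ (by linarith) (by linarith)
        calc Q = Q ^ 1 := (pow_one Q).symm
          _ ≤ Q ^ 4 := pow_le_pow_right₀ hQ (by norm_num)
      linarith
    calc (K : ℝ) ^ 2 = K * K := by ring
      _ ≤ K * (2 * Q ^ 4 * M) := mul_le_mul_of_nonneg_left h1 (by positivity)
      _ = (2 * Q ^ 2) ^ 2 * (K * M / 2) := by ring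
  have b2 : (K : ℝ) ^ β ≤ 4 * Q ^ 2 * Y := by
    set Hr : ℝ := (N : ℝ) ^ 2 * Q / M with hHrd
    have hHr0 : 0 < Hr := by
      rw [hHrd]
      positivity
    set r : ℝ := 2 * Hr / K with hr
    have hK2 : (K : ℝ) ≤ 2 * Hr := by linarith
    have hr1 : 1 ≤ r := by
      rw [hr, one_le_div (by positivity)]
      exact hK2
    have hr2 : Real.sqrt r ≤ r ^ β := by
      have h1 : Real.sqrt r ≤ r := by
        rw [Real.sqrt_le_iff]
        refine ⟨by linarith, by nlinarith⟩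
      refine h1.trans ?_
      calc r = r ^ (1 : ℝ) := (Real.rpow_one r).symm
        _ ≤ _ := Real.rpow_le_rpow_of_exponent_le hr1 F.hβ1.le
    have h2 : (K : ℝ) ^ β * Real.sqrt r ≤ 4 * (N * Q ^ 2) := by
      calc (K : ℝ) ^ β * Real.sqrt r ≤ (K : ℝ) ^ β * r ^ β :=
            mul_le_mul_of_nonneg_left hr2 (by positivity)
        _ = (2 * Hr) ^ β := by
            rw [← Real.mul_rpow (by positivity) (by linarith)]
            congr 1
            rw [hr]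
            field_simp
        _ = 2 ^ β * Hr ^ β := Real.mul_rpow (by norm_num) hHr0.le
        _ ≤ 4 * (N * Q ^ 2) := by
            refine mul_le_mul ?_ (HHr_pow F) (by positivity) (by norm_num)
            calc (2 : ℝ) ^ β ≤ 2 ^ (2 : ℝ) :=
                  Real.rpow_le_rpow_of_exponent_le (by norm_num) F.hβ2
              _ = 4 := by norm_num
    have h3 : (N : ℝ) ≤ Y * Real.sqrt r := by
      rw [hY, ← Real.sqrt_mul (by positivity)]
      apply Real.le_sqrt_of_sq_le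
      have e1 : (K : ℝ) * M / 2 * r = M * Hr := by
        rw [hr]
        field_simp
      have e2 : (M : ℝ) * Hr = (N : ℝ) ^ 2 * Q := by
        rw [hHrd]
        field_simp
      rw [e1, e2]
      nlinarith [sq_nonneg (N : ℝ)]
    have hsr : 0 < Real.sqrt r := by positivity
    have h4 : (K : ℝ) ^ β * Real.sqrt r ≤ 4 * Q ^ 2 * Y * Real.sqrt r := by
      calc (K : ℝ) ^ β * Real.sqrt r ≤ 4 * (N * Q ^ 2) := h2
        _ = 4 * Q ^ 2 * N := by ring
        _ ≤ 4 * Q ^ 2 * (Y * Real.sqrt r) := mul_le_mul_of_nonneg_left h3 (by positivity)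
        _ = _ := by ring
    exact le_of_mul_le_mul_right h4 hsr
  have hcard : (S.card : ℝ) * ‖a g‖ ^ 2 ≤ 6 * Q ^ 2 * Y * AA N a g := by
    have h5 := card_S hK1 S (fun k hk => (hS k hk).2)
    have h6 := AA_ge (a := a) hg
    refine mul_le_mul ?_ h6 (by positivity) (by positivity)
    linarith
  have hUB : 4 * U ^ 2 * B ≤ 3072 * Cd ^ 2 * C1 * P ^ 5 * Q ^ 2 * Y := by
    rw [hU, hB]
    have h1 : (N : ℝ) / g + (K : ℝ) ^ β ≤ 6 * Q ^ 2 * Y := by
      have h2 : 2 * Y ≤ 2 * Q ^ 2 * Y := by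
        have : 1 ≤ Q ^ 2 := one_le_pow₀ hQ
        nlinarith
      linarith
    calc 4 * (Cd * P) ^ 2 * (128 * C1 * P ^ 3 * ((N : ℝ) / g + (K : ℝ) ^ β)) =
          512 * Cd ^ 2 * C1 * P ^ 5 * ((N : ℝ) / g + (K : ℝ) ^ β) := by ring
      _ ≤ 512 * Cd ^ 2 * C1 * P ^ 5 * (6 * Q ^ 2 * Y) :=
          mul_le_mul_of_nonneg_left h1 (by positivity)
      _ = _ := by ring
  have hP5 : 1 ≤ P ^ 5 := one_le_pow₀ hP
  calc (M : ℝ) * (P ^ 2 / Y) * (4 * U ^ 2 * B * AA N a g + S.card * ‖a g‖ ^ 2) ≤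
        (M : ℝ) * (P ^ 2 / Y) * (3072 * Cd ^ 2 * C1 * P ^ 5 * Q ^ 2 * Y * AA N a g +
          6 * Q ^ 2 * Y * AA N a g) := by
        refine mul_le_mul_of_nonneg_left ?_ (by positivity)
        exact add_le_add (mul_le_mul_of_nonneg_right hUB hAA) hcard
    _ = (M : ℝ) * P ^ 2 * (3072 * Cd ^ 2 * C1 * P ^ 5 * Q ^ 2 * AA N a g +
          6 * Q ^ 2 * AA N a g * 1) := by
        field_simp
    _ ≤ (M : ℝ) * P ^ 2 * (3072 * Cd ^ 2 * C1 * P ^ 5 * Q ^ 2 * AA N a g +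
          6 * Q ^ 2 * AA N a g * P ^ 5) := by
        refine mul_le_mul_of_nonneg_left ?_ (by positivity)
        have := mul_le_mul_of_nonneg_left hP5 (by positivity : 0 ≤ 6 * Q ^ 2 * AA N a g)
        linarith
    _ = _ := by ring

/-- the subtracted side -/
lemma caseC (hHB : SHB) (hHR : SHR) {G : ℝ → ℂ} (hG : Rep δ G) {C1 Cd : ℝ} (hC0 : 0 < C1)
    (hC1 : ∀ M N : ℕ, 1 ≤ M → 1 ≤ N → LSB M N (C1 * ((M : ℝ) * N) ^ δ * (M + (N : ℝ) ^ β)))
    (hCd0 : 0 < Cd) (hCd : ∀ n : ℕ, n ≠ 0 → (n.divisors.card : ℝ) ≤ Cd * (n : ℝ) ^ δ)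
    {a : ℕ → ℂ}
    {g : ℕ} (hg : g ∈ osf N)
    (S : Finset ℤ) (hS : ∀ k ∈ S, Squarefree k.natAbs ∧ k.natAbs ≤ HH) :
    ‖∑ k ∈ S, ∑ n1 ∈ osf (N / g), ∑ n2 ∈ osf (N / g),
      if Cop g n1 n2 ∧ n1 ≠ n2 then trm a g (fun _ => 1) g (D2 g) (z2 M) k n1 n2 else 0‖ ≤
      (∫ t, ‖G t‖) * (Cd * (1024 * Cd ^ 2 * C1 + 3) * P ^ 7 * Q ^ 2 * M * AA N a g) := by
  have hM := Mr F
  have hN := Nr F
  have hP := F.hP1
  have hQ := F.hQ1
  have hδ0 := F.hδ0
  have hδ4 := F.hδ4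
  have hg' := mem_osf.1 hg
  have hg0 : 0 < g := by omega
  have hgr : (1 : ℝ) ≤ g := by exact_mod_cast hg0
  have hI : 0 ≤ ∫ t, ‖G t‖ := integral_nonneg fun t => norm_nonneg _
  have hls := lsB F hHR hC0 hC1 hg F.hH1 (by have : (0 : ℝ) ≤ HH := by positivity
                                             linarith)
  have hAA := AA_nonneg N a g
  have hX1 := X_ge_one F
  set B : ℝ := 128 * C1 * P ^ 3 * ((N : ℝ) / g + (HH : ℝ) ^ β) with hB
  have hB0 : 0 ≤ B := by positivity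
  set U : ℝ := Cd * P with hU
  have hU0 : 0 ≤ U := by positivity
  have hblk : Blk δ N HH g B a U (fun _ => 1) g S (D2 g) (z2 M) P := by
    refine ⟨hg, hB0, hls, hU0, fun n _ => one_pos, rfl, dvd_rfl, ?_, hS, ?_, by linarith, ?_⟩
    · intro n hn han
      have hn' := mem_osf.1 hn
      have hn0 : n ≠ 0 := by omega
      have hnN : n ≤ N := hn'.1.2.trans (Nat.div_le_self _ _)
      have h1 : tw n ≤ Cd * P := (tw_le n hn0).trans (tw_bound F hCd0 hCd hn0 hnN)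
      rw [Real.one_rpow, mul_one]
      exact h1
    · intro k hk
      unfold z2
      have hk0 : k.natAbs ≠ 0 := fun h => by
        have := (hS k hk).1
        rw [h] at this
        exact not_squarefree_zero this
      have h1 : (0 : ℝ) < k.natAbs := by exact_mod_cast Nat.pos_of_ne_zero hk0
      have : (0 : ℝ) < M := by linarith
      positivity
    · intro k hk
      have hk0 : k.natAbs ≠ 0 := fun h => by
        have := (hS k hk).1
        rw [h] at this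
        exact not_squarefree_zero this
      have h1 : (1 : ℝ) ≤ k.natAbs := by exact_mod_cast Nat.pos_of_ne_zero hk0
      have h2 : |D2 g k| ≤ 1 := by
        unfold D2
        split_ifs <;> norm_num
      have h3 : z2 M k ^ δ ≤ P := by
        refine F.hXP _ (by unfold z2; positivity) ?_
        unfold z2
        rw [Real.sqrt_le_iff]
        refine ⟨by positivity, ?_⟩
        have h4 : (M : ℝ) / k.natAbs ≤ M := div_le_self (by linarith) h1
        have h5 := M_le_X F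
        nlinarith
      calc |D2 g k| * z2 M k ^ δ ≤ 1 * P := mul_le_mul h2 h3 (by unfold z2; positivity) zero_le_one
        _ = P := one_mul P
  refine (block hHB hG hδ0 hblk).trans ?_
  refine mul_le_mul_of_nonneg_left ?_ hI
  have htw : tw g ≤ Cd * P := (tw_le g (by omega)).trans (tw_bound F hCd0 hCd (by omega) hg'.1.2)
  have hHp := HH_pow F
  have hNM : (N : ℝ) * Q ^ 2 ≤ M * Q ^ 2 := mul_le_mul_of_nonneg_right F.hNM (by positivity)
  have hQ2 : 1 ≤ Q ^ 2 := one_le_pow₀ hQ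
  have hUB : 4 * U ^ 2 * B ≤ 1024 * Cd ^ 2 * C1 * P ^ 5 * Q ^ 2 * M := by
    rw [hU, hB]
    have h1 : (N : ℝ) / g + (HH : ℝ) ^ β ≤ 2 * Q ^ 2 * M := by
      have h2 : (N : ℝ) / g ≤ N := div_le_self (by positivity) hgr
      have h3 : (N : ℝ) ≤ N * Q ^ 2 := by nlinarith
      linarith
    calc 4 * (Cd * P) ^ 2 * (128 * C1 * P ^ 3 * ((N : ℝ) / g + (HH : ℝ) ^ β)) =
          512 * Cd ^ 2 * C1 * P ^ 5 * ((N : ℝ) / g + (HH : ℝ) ^ β) := by ring
      _ ≤ 512 * Cd ^ 2 * C1 * P ^ 5 * (2 * Q ^ 2 * M) :=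
          mul_le_mul_of_nonneg_left h1 (by positivity)
      _ = _ := by ring
  have hcard : (S.card : ℝ) * ‖a g‖ ^ 2 ≤ 3 * Q ^ 2 * M * AA N a g := by
    have h5 := card_S F.hH1 S (fun k hk => (hS k hk).2)
    have h6 := AA_ge (a := a) hg
    refine mul_le_mul ?_ h6 (by positivity) (by positivity)
    have h7 := HH_le_NQ F
    have h8 : (N : ℝ) * Q ≤ M * Q ^ 2 := by
      refine mul_le_mul F.hNM ?_ (by linarith) (by linarith)
      nlinarith
    linarith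
  have hP5 : 1 ≤ P ^ 5 := one_le_pow₀ hP
  calc tw g * P * (4 * U ^ 2 * B * AA N a g + S.card * ‖a g‖ ^ 2) ≤
        (Cd * P) * P * (1024 * Cd ^ 2 * C1 * P ^ 5 * Q ^ 2 * M * AA N a g +
          3 * Q ^ 2 * M * AA N a g) := by
        refine mul_le_mul ?_ ?_ (by positivity) (by positivity)
        · exact mul_le_mul_of_nonneg_right htw (by linarith)
        · exact add_le_add (mul_le_mul_of_nonneg_right hUB hAA) hcard
    _ ≤ (Cd * P) * P * (1024 * Cd ^ 2 * C1 * P ^ 5 * Q ^ 2 * M * AA N a g +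
          3 * Q ^ 2 * M * AA N a g * P ^ 5) := by
        refine mul_le_mul_of_nonneg_left ?_ (by positivity)
        have := mul_le_mul_of_nonneg_left hP5 (by positivity : 0 ≤ 3 * Q ^ 2 * M * AA N a g)
        linarith
    _ = _ := by ring

end Est

end

end Pool.Agent.H348R2.RZHIk
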